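import Pool.Agent.Hhelper49.GaussPret.Cost

set_option autoImplicit false

open Filter Topology MeasureTheory
open scoped ENNReal

namespace Pool.Agent.GaussPret

open scoped Classical in
/-- the weights: the primes dividing `M` have weight `0`. -/
noncomputable def wt (f χ : GaussianInt → ℝ) (M : ℕ) (p : P1) : ℝ≥0∞ :=
  if (p : GaussianInt) ∣ (M : GaussianInt) then 0 else ENNReal.ofReal (1 - f p * χ p)

section

variable {f χ : GaussianInt → ℝ} {m M : ℕ}

theorem coprime_approx (hf : IsBCM f) (hχ : IsRayChar m χ) (hm : 0 < m) (hM : m ∣ M)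
    (n : GaussianInt) : n ≠ 0 → IsCoprime n (M : GaussianInt) →
      ENNReal.ofReal |f n - χ n| ≤ cost (wt f χ M) n := by
  classical
  induction n using UniqueFactorizationMonoid.induction_on_prime with
  | h₁ => intro h; exact absurd rfl h
  | h₂ u hu =>
    intro _ _
    rw [hf.map_unit hu, hχ.map_unit hu]
    simp
  | h₃ a q ha hq ih =>
    intro _ hc
    have hq0 : q ≠ 0 := hq.ne_zero
    have hcq : IsCoprime q (M : GaussianInt) := hc.of_mul_left_left
    have hca : IsCoprime a (M : GaussianInt) := hc.of_mul_left_right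
    obtain ⟨p, hp⟩ := exists_P1 hq
    have hpM : ¬ (p : GaussianInt) ∣ (M : GaussianInt) := by
      intro h
      have h1 : q ∣ (M : GaussianInt) := hp.symm.dvd.trans h
      have h2 : IsUnit q := hcq.isUnit_of_dvd' dvd_rfl h1
      exact hq.not_isUnit h2
    have hmM : (m : GaussianInt) ∣ (M : GaussianInt) := by exact_mod_cast Nat.cast_dvd_cast hM
    have hcm : IsCoprime q (m : GaussianInt) := hcq.of_isCoprime_of_dvd_right hmM
    have hw : wt f χ M p = ENNReal.ofReal (1 - f p * χ p) := by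
      rw [wt, if_neg hpM]
    have hfq : f q = f p := (hf.map_assoc hp (P1_ne_zero p)).symm
    have hχq : χ q = χ p := (hχ.map_assoc hp).symm
    have hsq : χ p * χ p = 1 := by
      rw [← hχq]; exact hχ.sq_eq_one hm hcm
    have h1 : |f (q * a) - χ (q * a)| ≤ (1 - f p * χ p) + |f a - χ a| := by
      rw [hf.mul q a hq0 ha, hχ.mul, hfq, hχq]
      have e : f p * f a - χ p * χ a = f p * (f a - χ a) + χ a * (f p - χ p) := by ring
      rw [e]
      have hfp : |f p| ≤ 1 := hf.abs_le_one (P1_ne_zero p)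
      have hχa : |χ a| ≤ 1 := hχ.abs_le_one hm a
      have hχp : |χ p| ≤ 1 := hχ.abs_le_one hm p
      have h2 : |f p - χ p| ≤ 1 - f p * χ p := by
        have e2 : f p - χ p = χ p * (f p * χ p - 1) := by
          have : χ p * (f p * χ p - 1) = f p * (χ p * χ p) - χ p := by ring
          rw [this, hsq, mul_one]
        have h3 : f p * χ p ≤ 1 := by
          have : |f p * χ p| ≤ 1 := by
            rw [abs_mul]; nlinarith [abs_nonneg (f p), abs_nonneg (χ p)]
          exact (abs_le.1 this).2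
        rw [e2, abs_mul, abs_of_nonpos (by linarith : f p * χ p - 1 ≤ 0)]
        nlinarith [abs_nonneg (χ p)]
      calc |f p * (f a - χ a) + χ a * (f p - χ p)|
          ≤ |f p * (f a - χ a)| + |χ a * (f p - χ p)| := abs_add_le _ _
        _ ≤ |f a - χ a| + |f p - χ p| := by
            rw [abs_mul, abs_mul]
            nlinarith [abs_nonneg (f a - χ a), abs_nonneg (f p - χ p)]
        _ ≤ (1 - f p * χ p) + |f a - χ a| := by linarith
    have hnn : 0 ≤ 1 - f p * χ p := by
      have hfp : |f p| ≤ 1 := hf.abs_le_one (P1_ne_zero p)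
      have hχp : |χ p| ≤ 1 := hχ.abs_le_one hm p
      have : |f p * χ p| ≤ 1 := by
        rw [abs_mul]; nlinarith [abs_nonneg (f p), abs_nonneg (χ p)]
      linarith [(abs_le.1 this).2]
    calc ENNReal.ofReal |f (q * a) - χ (q * a)|
        ≤ ENNReal.ofReal ((1 - f p * χ p) + |f a - χ a|) := ENNReal.ofReal_le_ofReal h1
      _ = wt f χ M p + ENNReal.ofReal |f a - χ a| := by
          rw [ENNReal.ofReal_add hnn (abs_nonneg _), hw]
      _ ≤ wt f χ M p + cost (wt f χ M) a := by gcongr; exact ih ha hca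
      _ ≤ cost (wt f χ M) (q * a) := cost_prime_mul _ p hp

open scoped Classical in
/-- The periodic approximation of `f`. -/
noncomputable def gfun (f χ : GaussianInt → ℝ) (M K : ℕ) (n : GaussianInt) : ℝ :=
  if IsCoprime (n / EuclideanDomain.gcd n ((M : GaussianInt) ^ K)) (M : GaussianInt) then
    f (EuclideanDomain.gcd n ((M : GaussianInt) ^ K)) *
      χ (n / EuclideanDomain.gcd n ((M : GaussianInt) ^ K)) else 0

theorem gfun_eq (hf : IsBCM f) (hχ : IsRayChar m χ) (hM0 : 0 < M) (K : ℕ)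
    (n d c : GaussianInt) (hn : n = d * c)
    (hd : Associated d (EuclideanDomain.gcd n ((M : GaussianInt) ^ K))) [Decidable (IsCoprime c (M : GaussianInt))] :
    gfun f χ M K n = if IsCoprime c (M : GaussianInt) then f d * χ c else 0 := by
  classical
  have hMK : ((M : GaussianInt) ^ K) ≠ 0 := by
    apply pow_ne_zero
    exact_mod_cast hM0.ne'
  have hg0 : EuclideanDomain.gcd n ((M : GaussianInt) ^ K) ≠ 0 := by
    intro h
    rw [EuclideanDomain.gcd_eq_zero_iff] at h
    exact hMK h.2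
  obtain ⟨u, hu⟩ := hd
  have hd0 : d ≠ 0 := by
    rintro rfl
    rw [zero_mul] at hu
    exact hg0 hu.symm
  have h1 : n / EuclideanDomain.gcd n ((M : GaussianInt) ^ K) = c * ((u⁻¹ : GaussianIntˣ) : GaussianInt) := by
    have h2 : n = (c * ((u⁻¹ : GaussianIntˣ) : GaussianInt)) *
        EuclideanDomain.gcd n ((M : GaussianInt) ^ K) := by
      rw [← hu]
      conv_lhs => rw [hn]
      have : c * ((u⁻¹ : GaussianIntˣ) : GaussianInt) * (d * (u : GaussianInt))
          = (d * c) * (((u⁻¹ : GaussianIntˣ) : GaussianInt) * (u : GaussianInt)) := by ring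
      rw [this, Units.inv_mul, mul_one]
    calc n / EuclideanDomain.gcd n ((M : GaussianInt) ^ K)
        = ((c * ((u⁻¹ : GaussianIntˣ) : GaussianInt)) *
            EuclideanDomain.gcd n ((M : GaussianInt) ^ K)) /
            EuclideanDomain.gcd n ((M : GaussianInt) ^ K) := by rw [← h2]
      _ = c * ((u⁻¹ : GaussianIntˣ) : GaussianInt) := mul_div_cancel_right₀ _ hg0
  have hcop : IsCoprime (c * ((u⁻¹ : GaussianIntˣ) : GaussianInt)) (M : GaussianInt) ↔
      IsCoprime c (M : GaussianInt) :=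
    isCoprime_mul_unit_right_left u⁻¹.isUnit _ _
  have hf1 : f (EuclideanDomain.gcd n ((M : GaussianInt) ^ K)) = f d :=
    (hf.map_assoc ⟨u, hu⟩ hd0).symm
  have hχ1 : χ (c * ((u⁻¹ : GaussianIntˣ) : GaussianInt)) = χ c :=
    (hχ.map_assoc ⟨u⁻¹, rfl⟩).symm
  rw [gfun, h1, hf1, hχ1]
  by_cases hc : IsCoprime c (M : GaussianInt)
  · rw [if_pos hc, if_pos (hcop.2 hc)]
  · rw [if_neg hc, if_neg (fun h => hc (hcop.1 h))]

theorem gcd_ne_zero' (hM0 : 0 < M) (K : ℕ) (n : GaussianInt) :
    EuclideanDomain.gcd n ((M : GaussianInt) ^ K) ≠ 0 := by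
  intro h
  rw [EuclideanDomain.gcd_eq_zero_iff] at h
  exact (pow_ne_zero K (by exact_mod_cast hM0.ne' : (M : GaussianInt) ≠ 0)) h.2

theorem gfun_per (hf : IsBCM f) (hχ : IsRayChar m χ) (hM0 : 0 < M) (hM : m ∣ M) (K : ℕ)
    (n b : GaussianInt) :
    gfun f χ M K (n + ((M ^ (K + 1) : ℕ) : GaussianInt) * b) = gfun f χ M K n := by
  classical
  set d := EuclideanDomain.gcd n ((M : GaussianInt) ^ K) with hd
  obtain ⟨c, hc⟩ : d ∣ n := EuclideanDomain.gcd_dvd_left _ _
  obtain ⟨e, he⟩ : d ∣ (M : GaussianInt) ^ K := EuclideanDomain.gcd_dvd_right _ _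
  obtain ⟨l, hl⟩ := hM
  have hn' : n + ((M ^ (K + 1) : ℕ) : GaussianInt) * b = d * (c + (M : GaussianInt) * (e * b)) := by
    conv_lhs => rw [hc]
    push_cast
    rw [pow_succ, he]
    ring
  have hassoc : Associated d
      (EuclideanDomain.gcd (n + ((M ^ (K + 1) : ℕ) : GaussianInt) * b) ((M : GaussianInt) ^ K)) := by
    apply associated_of_dvd_dvd
    · apply EuclideanDomain.dvd_gcd
      · rw [hn']; exact dvd_mul_right _ _
      · exact ⟨e, he⟩
    · rw [hd]
      apply EuclideanDomain.dvd_gcd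
      · have h1 : EuclideanDomain.gcd (n + ((M ^ (K + 1) : ℕ) : GaussianInt) * b)
            ((M : GaussianInt) ^ K) ∣ n + ((M ^ (K + 1) : ℕ) : GaussianInt) * b :=
          EuclideanDomain.gcd_dvd_left _ _
        have h2 : EuclideanDomain.gcd (n + ((M ^ (K + 1) : ℕ) : GaussianInt) * b)
            ((M : GaussianInt) ^ K) ∣ (M : GaussianInt) ^ K :=
          EuclideanDomain.gcd_dvd_right _ _
        have h3 : (M : GaussianInt) ^ K ∣ ((M ^ (K + 1) : ℕ) : GaussianInt) * b := by
          push_cast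
          rw [pow_succ, mul_assoc]
          exact dvd_mul_right _ _
        exact (dvd_add_left (h2.trans h3)).1 h1
      · exact EuclideanDomain.gcd_dvd_right _ _
  rw [gfun_eq hf hχ hM0 K n d c hc (Associated.refl _),
    gfun_eq hf hχ hM0 K _ d (c + (M : GaussianInt) * (e * b)) hn' hassoc]
  have h4 : IsCoprime (c + (M : GaussianInt) * (e * b)) (M : GaussianInt) ↔
      IsCoprime c (M : GaussianInt) := IsCoprime.add_mul_left_left_iff
  have h5 : χ (c + (M : GaussianInt) * (e * b)) = χ c := by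
    rw [hl]
    push_cast
    rw [mul_assoc]
    exact hχ.per _ _
  rw [h5]
  by_cases h6 : IsCoprime c (M : GaussianInt)
  · rw [if_pos h6, if_pos (h4.2 h6)]
  · rw [if_neg h6, if_neg (fun h => h6 (h4.1 h))]

theorem gfun_abs_le (hf : IsBCM f) (hχ : IsRayChar m χ) (hm : 0 < m) (hM0 : 0 < M) (K : ℕ)
    (n : GaussianInt) : |gfun f χ M K n| ≤ 1 := by
  rw [gfun]
  split_ifs
  · rw [abs_mul]
    have h1 := hf.abs_le_one (gcd_ne_zero' (M := M) hM0 K n)
    have h2 := hχ.abs_le_one hm (n / EuclideanDomain.gcd n ((M : GaussianInt) ^ K))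
    nlinarith [abs_nonneg (f (EuclideanDomain.gcd n ((M : GaussianInt) ^ K))),
      abs_nonneg (χ (n / EuclideanDomain.gcd n ((M : GaussianInt) ^ K)))]
  · simp

/-- the bad event -/
def Bad (M K : ℕ) (n : GaussianInt) : Prop :=
  ∃ p : P1, (p : GaussianInt) ∣ (M : GaussianInt) ∧ (p : GaussianInt) ^ (K + 1) ∣ n

theorem coprime_of_not_bad (hM0 : 0 < M) (K : ℕ) (n : GaussianInt)
    (hb : ¬ Bad M K n) :
    IsCoprime (n / EuclideanDomain.gcd n ((M : GaussianInt) ^ K)) (M : GaussianInt) := by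
  set d := EuclideanDomain.gcd n ((M : GaussianInt) ^ K) with hd
  have hd0 : d ≠ 0 := gcd_ne_zero' hM0 K n
  have hdn : d * (n / d) = n := EuclideanDomain.mul_div_cancel' hd0 (EuclideanDomain.gcd_dvd_left _ _)
  obtain ⟨e, he⟩ : d ∣ (M : GaussianInt) ^ K := EuclideanDomain.gcd_dvd_right _ _
  have hM1 : (M : GaussianInt) ≠ 0 := by exact_mod_cast hM0.ne'
  apply isCoprime_of_prime_dvd
  · rintro ⟨-, h2⟩
    exact hM1 h2
  · intro z hz hz1 hz2
    apply hb
    obtain ⟨p, hp⟩ := exists_P1 hz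
    refine ⟨p, hp.dvd.trans hz2, ?_⟩
    have hpp := P1_prime p
    have hp1 : (p : GaussianInt) ∣ n / d := hp.dvd.trans hz1
    have hpd : d * (p : GaussianInt) ∣ n := by
      rw [← hdn]; exact mul_dvd_mul_left d hp1
    have hpe : ¬ (p : GaussianInt) ∣ e := by
      intro h
      have h1 : d * (p : GaussianInt) ∣ (M : GaussianInt) ^ K := by
        rw [he]; exact mul_dvd_mul_left d h
      have h2 : d * (p : GaussianInt) ∣ d * 1 := by
        rw [mul_one]
        exact EuclideanDomain.dvd_gcd hpd h1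
      have h3 : (p : GaussianInt) ∣ 1 := (mul_dvd_mul_iff_left hd0).1 h2
      exact hpp.not_isUnit (isUnit_of_dvd_one h3)
    have h4 : (p : GaussianInt) ^ K ∣ d := by
      have h5 : (p : GaussianInt) ^ K ∣ d * e := by
        rw [← he]; exact pow_dvd_pow_of_dvd (hp.dvd.trans hz2) K
      have h6 : IsCoprime ((p : GaussianInt) ^ K) e := by
        apply IsCoprime.pow_left
        exact (hpp.irreducible.coprime_iff_not_dvd).2 hpe
      exact h6.dvd_of_dvd_mul_right h5
    rw [pow_succ]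
    exact (mul_dvd_mul_right h4 _).trans hpd

theorem finite_dvd (hM0 : 0 < M) : {p : P1 | (p : GaussianInt) ∣ (M : GaussianInt)}.Finite := by
  have hM1 : (M : GaussianInt) ≠ 0 := by exact_mod_cast hM0.ne'
  apply Set.Finite.of_finite_image _ (Set.injOn_of_injective Subtype.val_injective)
  apply (finite_ball ‖GaussianInt.toComplex (M : GaussianInt)‖).subset
  rintro _ ⟨p, ⟨c, hc⟩, rfl⟩
  show ‖GaussianInt.toComplex (p : GaussianInt)‖ ≤ _
  have hc0 : c ≠ 0 := by
    rintro rfl
    rw [mul_zero] at hc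
    exact hM1 hc
  rw [hc, map_mul, norm_mul]
  exact le_mul_of_one_le_right (norm_nonneg _) (one_le_norm hc0)

open scoped Classical in
theorem card_bad_le (hM0 : 0 < M) (K : ℕ) (r : ℝ) :
    (((ball r).filter (fun n => Bad M K n)).card : ℝ) ≤
      ((finite_dvd hM0).toFinset.card : ℝ) * (9 * r ^ 2 / 2 ^ (K + 1)) := by
  have h1 : (ball r).filter (fun n => Bad M K n) ⊆
      (finite_dvd hM0).toFinset.biUnion
        (fun p => (ball r).filter (fun n => (p : GaussianInt) ^ (K + 1) ∣ n)) := by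
    intro n hn
    rw [Finset.mem_filter] at hn
    obtain ⟨hn1, p, hp1, hp2⟩ := hn
    rw [Finset.mem_biUnion]
    refine ⟨p, ?_, ?_⟩
    · rw [Set.Finite.mem_toFinset]; exact hp1
    · rw [Finset.mem_filter]; exact ⟨hn1, hp2⟩
  have h2 : (((ball r).filter (fun n => Bad M K n)).card : ℝ) ≤
      ∑ p ∈ (finite_dvd hM0).toFinset,
        (((ball r).filter (fun n => (p : GaussianInt) ^ (K + 1) ∣ n)).card : ℝ) := by
    exact_mod_cast (Finset.card_le_card h1).trans Finset.card_biUnion_le
  refine h2.trans ?_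
  rw [← nsmul_eq_mul, ← Finset.sum_const]
  apply Finset.sum_le_sum
  intro p _
  have h3 := card_ball_dvd_le r ((p : GaussianInt) ^ (K + 1)) (pow_ne_zero _ (P1_ne_zero p))
  refine h3.trans ?_
  rw [nm_pow]
  have h4 : (2 : ℝ) ^ (K + 1) ≤ nm (p : GaussianInt) ^ (K + 1) :=
    pow_le_pow_left₀ (by norm_num) (two_le_nm_of_prime (P1_prime p)) _
  gcongr

theorem approx_pt (hf : IsBCM f) (hχ : IsRayChar m χ) (hm : 0 < m) (hM0 : 0 < M) (hM : m ∣ M)
    (K : ℕ) (n : GaussianInt) (hn : n ≠ 0) (hb : ¬ Bad M K n) :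
    ENNReal.ofReal |f n - gfun f χ M K n| ≤ cost (wt f χ M) n := by
  classical
  have hc := coprime_of_not_bad hM0 K n hb
  set d := EuclideanDomain.gcd n ((M : GaussianInt) ^ K) with hd
  have hd0 : d ≠ 0 := gcd_ne_zero' hM0 K n
  have hdn : d * (n / d) = n := EuclideanDomain.mul_div_cancel' hd0 (EuclideanDomain.gcd_dvd_left _ _)
  have hc0 : n / d ≠ 0 := by
    intro h
    rw [h, mul_zero] at hdn
    exact hn hdn.symm
  have h1 : gfun f χ M K n = f d * χ (n / d) := by
    rw [gfun, ← hd, if_pos hc]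
  have h2 : f n = f d * f (n / d) := by
    conv_lhs => rw [← hdn]
    exact hf.mul _ _ hd0 hc0
  rw [h1, h2, ← mul_sub, abs_mul]
  calc ENNReal.ofReal (|f d| * |f (n / d) - χ (n / d)|)
      ≤ ENNReal.ofReal |f (n / d) - χ (n / d)| := by
        apply ENNReal.ofReal_le_ofReal
        have := hf.abs_le_one hd0
        nlinarith [abs_nonneg (f (n / d) - χ (n / d))]
    _ ≤ cost (wt f χ M) (n / d) := coprime_approx hf hχ hm hM _ hc0 hc
    _ ≤ cost (wt f χ M) n := cost_mono_dvd _ ⟨d, by rw [mul_comm]; exact hdn.symm⟩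

/-- The key estimate. -/
theorem sum_approx_le (hf : IsBCM f) (hχ : IsRayChar m χ) (hm : 0 < m) (hM0 : 0 < M) (hM : m ∣ M)
    (K : ℕ) (r τ : ℝ) (hτ0 : 0 ≤ τ)
    (hτ : ∑' p : P1, wt f χ M p * ENNReal.ofReal (1 / nm (p : GaussianInt)) ≤ ENNReal.ofReal τ) :
    ∑ n ∈ ball r, |f n - gfun f χ M K n| ≤
      18 * r ^ 2 * τ + 2 * (((finite_dvd hM0).toFinset.card : ℝ) * (9 * r ^ 2 / 2 ^ (K + 1))) := by
  classical
  rw [← Finset.sum_filter_add_sum_filter_not (ball r) (fun n => ¬ Bad M K n)]
  apply add_le_add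
  · have h1 : ENNReal.ofReal (∑ n ∈ (ball r).filter (fun n => ¬ Bad M K n),
        |f n - gfun f χ M K n|) ≤ ENNReal.ofReal (18 * r ^ 2 * τ) := by
      rw [ENNReal.ofReal_sum_of_nonneg (fun _ _ => abs_nonneg _)]
      calc ∑ n ∈ (ball r).filter (fun n => ¬ Bad M K n), ENNReal.ofReal |f n - gfun f χ M K n|
          ≤ ∑ n ∈ (ball r).filter (fun n => ¬ Bad M K n), cost (wt f χ M) n := by
            apply Finset.sum_le_sum
            intro n hn
            rw [Finset.mem_filter, mem_ball] at hn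
            exact approx_pt hf hχ hm hM0 hM K n hn.1.1 hn.2
        _ ≤ ∑ n ∈ ball r, cost (wt f χ M) n :=
            Finset.sum_le_sum_of_subset (Finset.filter_subset _ _)
        _ ≤ ENNReal.ofReal (18 * r ^ 2) *
              ∑' p : P1, wt f χ M p * ENNReal.ofReal (1 / nm (p : GaussianInt)) := sum_cost_le _ _
        _ ≤ ENNReal.ofReal (18 * r ^ 2) * ENNReal.ofReal τ := by gcongr
        _ = ENNReal.ofReal (18 * r ^ 2 * τ) := by rw [← ENNReal.ofReal_mul (by positivity)]
    exact (ENNReal.ofReal_le_ofReal_iff (by positivity)).1 h1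
  · calc ∑ n ∈ (ball r).filter (fun n => ¬ ¬ Bad M K n), |f n - gfun f χ M K n|
        ≤ ∑ n ∈ (ball r).filter (fun n => Bad M K n), (2 : ℝ) := by
          have e : (ball r).filter (fun n => ¬ ¬ Bad M K n) = (ball r).filter (fun n => Bad M K n) := by
            congr 1; ext n; rw [not_not]
          rw [e]
          apply Finset.sum_le_sum
          intro n hn
          rw [Finset.mem_filter, mem_ball] at hn
          have h1 := hf.abs_le_one hn.1.1
          have h2 := gfun_abs_le hf hχ hm hM0 K n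
          calc |f n - gfun f χ M K n| ≤ |f n| + |gfun f χ M K n| := abs_sub _ _
            _ ≤ 2 := by linarith
      _ = 2 * (((ball r).filter (fun n => Bad M K n)).card : ℝ) := by
          rw [Finset.sum_const, nsmul_eq_mul, mul_comm]
      _ ≤ _ := by
          gcongr
          convert card_bad_le hM0 K r

end

end Pool.Agent.GaussPret
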