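import Pool.Agent.Hhelper49.GaussPret.Defs

set_option autoImplicit false

open Filter Topology MeasureTheory

namespace Pool.Agent.GaussPret

/-! ### Norms and finite sets -/

theorem nm_eq (z : GaussianInt) : nm z = ‖GaussianInt.toComplex z‖ ^ 2 := by
  rw [nm, GaussianInt.intCast_real_norm, Complex.normSq_eq_norm_sq]

theorem nm_nonneg (z : GaussianInt) : 0 ≤ nm z := by rw [nm_eq]; positivity

theorem nm_mul (a b : GaussianInt) : nm (a * b) = nm a * nm b := by
  simp only [nm_eq, map_mul, norm_mul, mul_pow]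

theorem nm_pow (a : GaussianInt) (j : ℕ) : nm (a ^ j) = nm a ^ j := by
  induction j with
  | zero => simp [nm_eq]
  | succ j ih => rw [pow_succ, nm_mul, ih, pow_succ]

theorem one_le_nm {z : GaussianInt} (hz : z ≠ 0) : 1 ≤ nm z := by
  have h := GaussianInt.norm_pos.2 hz
  have : (1 : ℤ) ≤ Zsqrtd.norm z := h
  rw [nm]
  exact_mod_cast this

theorem one_le_norm {z : GaussianInt} (hz : z ≠ 0) : 1 ≤ ‖GaussianInt.toComplex z‖ := by
  have h := one_le_nm hz
  rw [nm_eq] at h
  nlinarith [norm_nonneg (GaussianInt.toComplex z)]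

theorem two_le_nm_of_prime {p : GaussianInt} (hp : Prime p) : 2 ≤ nm p := by
  have h0 : p ≠ 0 := hp.ne_zero
  have h1 : (0 : ℤ) < Zsqrtd.norm p := GaussianInt.norm_pos.2 h0
  have h2 : Zsqrtd.norm p ≠ 1 := by
    intro h
    apply hp.not_isUnit
    exact Zsqrtd.norm_eq_one_iff.1 (by rw [h]; rfl)
  have h3 : (2 : ℤ) ≤ Zsqrtd.norm p := by omega
  rw [nm]
  exact_mod_cast h3

/-- Gaussian integers in a disc around `0`. -/
theorem finite_ball (r : ℝ) : {m : GaussianInt | ‖GaussianInt.toComplex m‖ ≤ r}.Finite := by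
  have h : {m : GaussianInt | ‖GaussianInt.toComplex m‖ ≤ r} ⊆
      (fun x : ℤ × ℤ => (⟨x.1, x.2⟩ : GaussianInt)) ''
        ((Finset.Icc (-⌈|r|⌉) ⌈|r|⌉ ×ˢ Finset.Icc (-⌈|r|⌉) ⌈|r|⌉ : Finset (ℤ × ℤ)) :
          Set (ℤ × ℤ)) := by
    intro m hm
    simp only [Set.mem_ofPred_eq] at hm
    refine ⟨(m.re, m.im), ?_, rfl⟩
    have h1 : |(m.re : ℝ)| ≤ |r| := by
      rw [GaussianInt.intCast_re]
      exact (Complex.abs_re_le_norm _).trans (hm.trans (le_abs_self r))
    have h2 : |(m.im : ℝ)| ≤ |r| := by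
      rw [GaussianInt.intCast_im]
      exact (Complex.abs_im_le_norm _).trans (hm.trans (le_abs_self r))
    rw [abs_le] at h1 h2
    have hc := Int.le_ceil |r|
    simp only [Finset.coe_product, Finset.coe_Icc, Set.mem_prod, Set.mem_Icc]
    refine ⟨⟨?_, ?_⟩, ?_, ?_⟩
    · have : ((-⌈|r|⌉ : ℤ) : ℝ) ≤ (m.re : ℝ) := by push_cast; linarith
      exact_mod_cast this
    · have : (m.re : ℝ) ≤ ((⌈|r|⌉ : ℤ) : ℝ) := by linarith
      exact_mod_cast this
    · have : ((-⌈|r|⌉ : ℤ) : ℝ) ≤ (m.im : ℝ) := by push_cast; linarith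
      exact_mod_cast this
    · have : (m.im : ℝ) ≤ ((⌈|r|⌉ : ℤ) : ℝ) := by linarith
      exact_mod_cast this
  exact ((Finset.finite_toSet _).image _).subset h

/-- Nonzero Gaussian integers of absolute value at most `r`. -/
noncomputable def ball (r : ℝ) : Finset GaussianInt :=
  ((finite_ball r).subset (fun m (hm : m ∈ {m : GaussianInt | m ≠ 0 ∧
    ‖GaussianInt.toComplex m‖ ≤ r}) => hm.2)).toFinset

theorem mem_ball {r : ℝ} {m : GaussianInt} :
    m ∈ ball r ↔ m ≠ 0 ∧ ‖GaussianInt.toComplex m‖ ≤ r := by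
  simp [ball]

theorem card_ball_le (r : ℝ) : ((ball r).card : ℝ) ≤ 9 * r ^ 2 := by
  by_cases hr : r < 1
  · have : ball r = ∅ := by
      apply Finset.eq_empty_of_forall_notMem
      intro m hm
      rw [mem_ball] at hm
      have := one_le_norm hm.1
      linarith [hm.2]
    rw [this]
    simp
    positivity
  · push Not at hr
    have h : (ball r).card ≤ ((Finset.Icc (-⌊r⌋) ⌊r⌋) ×ˢ (Finset.Icc (-⌊r⌋) ⌊r⌋)).card := by
      apply Finset.card_le_card_of_injOn (fun m => (m.re, m.im))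
      · intro m hm
        have hm' : m ∈ ball r := hm
        rw [mem_ball] at hm'
        have h1 : |(m.re : ℝ)| ≤ r := by
          rw [GaussianInt.intCast_re]
          exact (Complex.abs_re_le_norm _).trans hm'.2
        have h2 : |(m.im : ℝ)| ≤ r := by
          rw [GaussianInt.intCast_im]
          exact (Complex.abs_im_le_norm _).trans hm'.2
        rw [abs_le] at h1 h2
        simp only [Finset.coe_product, Finset.coe_Icc, Set.mem_prod, Set.mem_Icc]
        refine ⟨⟨?_, ?_⟩, ?_, ?_⟩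
        · rw [neg_le]; apply Int.le_floor.2; push_cast; linarith
        · apply Int.le_floor.2; linarith
        · rw [neg_le]; apply Int.le_floor.2; push_cast; linarith
        · apply Int.le_floor.2; linarith
      · intro a _ b _ hab
        simp only [Prod.mk.injEq] at hab
        exact Zsqrtd.ext hab.1 hab.2
    have h0 : 0 ≤ ⌊r⌋ := Int.floor_nonneg.2 (by linarith)
    have hcard : (((Finset.Icc (-⌊r⌋) ⌊r⌋) ×ˢ (Finset.Icc (-⌊r⌋) ⌊r⌋)).card : ℝ)
        = (2 * (⌊r⌋ : ℝ) + 1) ^ 2 := by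
      rw [Finset.card_product, Int.card_Icc]
      have : ((⌊r⌋ + 1 - -⌊r⌋).toNat : ℝ) = 2 * (⌊r⌋ : ℝ) + 1 := by
        have h1 : ((⌊r⌋ + 1 - -⌊r⌋).toNat : ℤ) = ⌊r⌋ + 1 - -⌊r⌋ := Int.toNat_of_nonneg (by linarith)
        rw [← Int.cast_natCast, h1]
        push_cast
        ring
      push_cast
      rw [this]
      ring
    have h3 : ((ball r).card : ℝ) ≤ (2 * (⌊r⌋ : ℝ) + 1) ^ 2 := by
      rw [← hcard]; exact_mod_cast h
    have h4 : (⌊r⌋ : ℝ) ≤ r := Int.floor_le r
    have h5 : (0 : ℝ) ≤ (⌊r⌋ : ℝ) := by exact_mod_cast h0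
    nlinarith

open scoped Classical in
/-- Multiples of `d` in a disc. -/
theorem card_ball_dvd_le (r : ℝ) (d : GaussianInt) (hd : d ≠ 0) :
    (((ball r).filter (fun n => d ∣ n)).card : ℝ) ≤ 9 * r ^ 2 / nm d := by
  have hd1 : 0 < ‖GaussianInt.toComplex d‖ := by linarith [one_le_norm hd]
  have h : ((ball r).filter (fun n => d ∣ n)).card ≤
      (ball (r / ‖GaussianInt.toComplex d‖)).card := by
    apply Finset.card_le_card_of_injOn (fun n => n / d)
    · intro n hn
      have hn' : n ∈ (ball r).filter (fun n => d ∣ n) := hn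
      rw [Finset.mem_filter, mem_ball] at hn'
      obtain ⟨⟨h0, h1⟩, m, rfl⟩ := hn'
      have hm0 : m ≠ 0 := right_ne_zero_of_mul h0
      show (d * m) / d ∈ (ball (r / ‖GaussianInt.toComplex d‖) : Set GaussianInt)
      have h2 : (d * m) / d = m := by
        rw [mul_comm]; exact mul_div_cancel_right₀ m hd
      rw [h2]
      show m ∈ ball _
      rw [mem_ball]
      refine ⟨hm0, ?_⟩
      rw [le_div_iff₀ hd1]
      rw [map_mul, norm_mul, mul_comm] at h1
      exact h1
    · intro a ha b hb hab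
      have ha' : a ∈ (ball r).filter (fun n => d ∣ n) := ha
      have hb' : b ∈ (ball r).filter (fun n => d ∣ n) := hb
      rw [Finset.mem_filter] at ha' hb'
      have h1 := EuclideanDomain.mul_div_cancel' hd ha'.2
      have h2 := EuclideanDomain.mul_div_cancel' hd hb'.2
      have hab' : a / d = b / d := hab
      rw [← h1, ← h2, hab']
  calc (((ball r).filter (fun n => d ∣ n)).card : ℝ)
      ≤ ((ball (r / ‖GaussianInt.toComplex d‖)).card : ℝ) := by exact_mod_cast h
    _ ≤ 9 * (r / ‖GaussianInt.toComplex d‖) ^ 2 := card_ball_le _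
    _ = 9 * r ^ 2 / nm d := by rw [nm_eq, div_pow]; ring

end Pool.Agent.GaussPret
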