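import Pool.Agent.Hhelper49.GaussPret.Euler

set_option autoImplicit false

open Filter Topology MeasureTheory
open scoped ENNReal

namespace Pool.Agent.GaussPret

/-! ### Real characters -/

theorem mper_mul_eq (Q : ℕ) [NeZero Q] (g : GaussianInt → ℝ) (hg : Per Q g) (b : GaussianInt)
    (hb : IsCoprime b (Q : GaussianInt)) : mper Q (fun n => g (b * n)) = mper Q g := by
  have hinj : Function.Injective (fun x : ZMod Q × ZMod Q => res Q (b * rep x)) := by
    intro x y hxy
    have hxy' : res Q (b * rep x) = res Q (b * rep y) := hxy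
    have h1 := eq_rep_add (Q := Q) (b * rep x)
    have h2 := eq_rep_add (Q := Q) (b * rep y)
    rw [hxy'] at h1
    have h3 : (Q : GaussianInt) ∣ b * (rep x - rep y) := by
      refine ⟨⟨(b * rep x).re / Q, (b * rep x).im / Q⟩ - ⟨(b * rep y).re / Q, (b * rep y).im / Q⟩, ?_⟩
      linear_combination h1 - h2
    obtain ⟨w, hw⟩ := hb.symm.dvd_of_dvd_mul_left h3
    have h4 : rep x = rep y + (Q : GaussianInt) * w := by rw [← hw]; ring
    have h5 := res_rep_add (Q := Q) x 0
    rw [mul_zero, add_zero, h4, res_rep_add] at h5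
    exact h5.symm
  have hbij := Finite.injective_iff_bijective.1 hinj
  rw [mper, mper]
  congr 1
  rw [← hbij.sum_comp (fun x => g (rep x))]
  apply Finset.sum_congr rfl
  intro x _
  exact hg.eq_rep _

section

variable {f χ : GaussianInt → ℝ} {m M : ℕ}

theorem gfun_mul (hf : IsBCM f) (hχ : IsRayChar m χ) (hM0 : 0 < M) (K : ℕ)
    (b n : GaussianInt) (hb : IsCoprime b (M : GaussianInt)) :
    gfun f χ M K (b * n) = χ b * gfun f χ M K n := by
  classical
  set d := EuclideanDomain.gcd n ((M : GaussianInt) ^ K) with hd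
  obtain ⟨c, hc⟩ : d ∣ n := EuclideanDomain.gcd_dvd_left _ _
  have hassoc : Associated d (EuclideanDomain.gcd (b * n) ((M : GaussianInt) ^ K)) := by
    apply associated_of_dvd_dvd
    · apply EuclideanDomain.dvd_gcd
      · exact (EuclideanDomain.gcd_dvd_left _ _).trans (dvd_mul_left _ _)
      · exact EuclideanDomain.gcd_dvd_right _ _
    · rw [hd]
      apply EuclideanDomain.dvd_gcd
      · have h1 : EuclideanDomain.gcd (b * n) ((M : GaussianInt) ^ K) ∣ b * n :=
          EuclideanDomain.gcd_dvd_left _ _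
        have h2 : EuclideanDomain.gcd (b * n) ((M : GaussianInt) ^ K) ∣ (M : GaussianInt) ^ K :=
          EuclideanDomain.gcd_dvd_right _ _
        have h3 : IsCoprime b ((M : GaussianInt) ^ K) := hb.pow_right
        have h4 : IsCoprime (EuclideanDomain.gcd (b * n) ((M : GaussianInt) ^ K)) b :=
          (h3.of_isCoprime_of_dvd_right h2).symm
        exact h4.dvd_of_dvd_mul_left h1
      · exact EuclideanDomain.gcd_dvd_right _ _
  rw [gfun_eq hf hχ hM0 K n d c hc (Associated.refl _),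
    gfun_eq hf hχ hM0 K (b * n) d (b * c) (by rw [hc]; ring) hassoc, hχ.mul]
  have h6 : IsCoprime (b * c) (M : GaussianInt) ↔ IsCoprime c (M : GaussianInt) :=
    ⟨fun h => h.of_mul_left_right, fun h => hb.mul_left h⟩
  by_cases h7 : IsCoprime c (M : GaussianInt)
  · rw [if_pos h7, if_pos (h6.2 h7)]; ring
  · rw [if_neg h7, if_neg (fun h => h7 (h6.1 h)), mul_zero]

theorem exists_coprime_lift (hM0 : 0 < M) (b0 : GaussianInt)
    (hb0 : IsCoprime b0 (m : GaussianInt)) :
    ∃ b c : GaussianInt, IsCoprime b (M : GaussianInt) ∧ b = b0 + (m : GaussianInt) * c := by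
  classical
  set S := (finite_dvd hM0).toFinset.filter (fun p : P1 => ¬ (p : GaussianInt) ∣ b0) with hS
  refine ⟨b0 + (m : GaussianInt) * ∏ p ∈ S, (p : GaussianInt), _, ?_, rfl⟩
  apply isCoprime_of_prime_dvd
  · rintro ⟨-, h2⟩
    exact (by exact_mod_cast hM0.ne' : (M : GaussianInt) ≠ 0) h2
  · intro z hz hz1 hz2
    obtain ⟨p, hp⟩ := exists_P1 hz
    have hp1 := hp.dvd.trans hz1
    have hp2 := hp.dvd.trans hz2
    have hpp := P1_prime p
    by_cases h : (p : GaussianInt) ∣ b0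
    · have h1 : (p : GaussianInt) ∣ (m : GaussianInt) * ∏ p ∈ S, (p : GaussianInt) :=
        (dvd_add_right h).1 hp1
      rcases hpp.dvd_or_dvd h1 with h2 | h2
      · exact hpp.not_isUnit (hb0.isUnit_of_dvd' h h2)
      · obtain ⟨q, hq, hpq⟩ := (hpp.dvd_finsetProd_iff _).1 h2
        have := P1_eq_of_dvd hpq
        subst this
        rw [hS, Finset.mem_filter] at hq
        exact hq.2 h
    · have h1 : p ∈ S := by
        rw [hS, Finset.mem_filter, Set.Finite.mem_toFinset]
        exact ⟨hp2, h⟩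
      have h2 : (p : GaussianInt) ∣ ∏ p ∈ S, (p : GaussianInt) :=
        Finset.dvd_prod_of_mem (fun p : P1 => (p : GaussianInt)) h1
      exact h ((dvd_add_left (h2.mul_left _)).1 hp1)

theorem mper_gfun_zero (hf : IsBCM f) (hχ : IsRayChar m χ) (hM0 : 0 < M) (hM : m ∣ M)
    (K : ℕ) [NeZero (M ^ (K + 1))] (b0 : GaussianInt) (hb0 : IsCoprime b0 (m : GaussianInt))
    (hne : χ b0 ≠ 1) : mper (M ^ (K + 1)) (gfun f χ M K) = 0 := by
  obtain ⟨b, c, hb, hbc⟩ := exists_coprime_lift (m := m) hM0 b0 hb0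
  have hχb : χ b = χ b0 := by rw [hbc]; exact hχ.per _ _
  have h1 : mper (M ^ (K + 1)) (fun n => gfun f χ M K (b * n)) = mper (M ^ (K + 1)) (gfun f χ M K) := by
    apply mper_mul_eq
    · intro a b'
      exact gfun_per hf hχ hM0 hM K a b'
    · push_cast
      exact hb.pow_right
  have h2 : mper (M ^ (K + 1)) (fun n => gfun f χ M K (b * n))
      = χ b * mper (M ^ (K + 1)) (gfun f χ M K) := by
    rw [mper, mper, mul_div_assoc', Finset.mul_sum]
    congr 1
    apply Finset.sum_congr rfl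
    intro x _
    exact gfun_mul hf hχ hM0 K b _ hb
  rw [h2, hχb] at h1
  have h3 : (χ b0 - 1) * mper (M ^ (K + 1)) (gfun f χ M K) = 0 := by linarith
  rcases mul_eq_zero.1 h3 with h | h
  · exact absurd (by linarith) hne
  · exact h

theorem IsRayChar.prod_le (hf : IsBCM f) (hχ : IsRayChar m χ) (hm : 0 < m) (p : P1) :
    |f p * χ p| ≤ 1 := by
  have hfp : |f p| ≤ 1 := hf.abs_le_one (P1_ne_zero p)
  have hχp : |χ p| ≤ 1 := hχ.abs_le_one hm p
  rw [abs_mul]; nlinarith [abs_nonneg (f p), abs_nonneg (χ p)]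

/-- the approximation -/
theorem exists_gfun (hf : IsBCM f) (hχ : IsRayChar m χ) (hm : 0 < m)
    (hs : Summable (fun p : P1 => (1 - f p * χ p) / nm (p : GaussianInt))) (ε : ℝ) (hε : 0 < ε) :
    ∃ M K : ℕ, 0 < M ∧ m ∣ M ∧
      ∀ r : ℝ, SS (fun n => |f n - gfun f χ M K n|) r ≤ ε * r ^ 2 := by
  classical
  have hnn : ∀ p : P1, 0 ≤ (1 - f p * χ p) / nm (p : GaussianInt) := by
    intro p
    have h1 := two_le_nm_of_prime (P1_prime p)
    have h2 := (abs_le.1 (IsRayChar.prod_le hf hχ hm p)).2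
    apply div_nonneg <;> linarith
  have hw : ∑' p : P1, ENNReal.ofReal ((1 - f p * χ p) / nm (p : GaussianInt)) ≠ ∞ := by
    rw [← ENNReal.ofReal_tsum_of_nonneg hnn hs]
    exact ENNReal.ofReal_ne_top
  obtain ⟨T, hT⟩ := exists_tail hw (τ := ε / 36) (by positivity)
  set M : ℕ := m * ∏ p ∈ T, (Zsqrtd.norm (p : GaussianInt)).natAbs with hM
  have hM0 : 0 < M := by
    rw [hM]
    apply Nat.mul_pos hm
    apply Finset.prod_pos
    intro p _
    have h1 : (0 : ℤ) < Zsqrtd.norm (p : GaussianInt) := GaussianInt.norm_pos.2 (P1_ne_zero p)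
    omega
  have hmM : m ∣ M := ⟨_, hM⟩
  have hTM : ∀ p ∈ T, (p : GaussianInt) ∣ (M : GaussianInt) := by
    intro p hp
    have h1 : (Zsqrtd.norm (p : GaussianInt)).natAbs ∣ M :=
      (Finset.dvd_prod_of_mem (fun p : P1 => (Zsqrtd.norm (p : GaussianInt)).natAbs) hp).mul_left m
    have h2 : (((Zsqrtd.norm (p : GaussianInt)).natAbs : ℕ) : GaussianInt) ∣ (M : GaussianInt) := by
      exact_mod_cast Nat.cast_dvd_cast h1
    refine dvd_trans ?_ h2
    have h3 : (((Zsqrtd.norm (p : GaussianInt)).natAbs : ℕ) : GaussianInt)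
        = ((Zsqrtd.norm (p : GaussianInt) : ℤ) : GaussianInt) := by
      have h1 : (0 : ℤ) < Zsqrtd.norm (p : GaussianInt) := GaussianInt.norm_pos.2 (P1_ne_zero p)
      have h4 : (((Zsqrtd.norm (p : GaussianInt)).natAbs : ℕ) : ℤ)
        = Zsqrtd.norm (p : GaussianInt) := Int.natAbs_of_nonneg h1.le
      rw [← Int.cast_natCast, h4]
    rw [h3, Zsqrtd.norm_eq_mul_conj]
    exact dvd_mul_right _ _
  obtain ⟨K, hK⟩ : ∃ K : ℕ, 2 * ((finite_dvd hM0).toFinset.card : ℝ) * 9 / (ε / 2) < 2 ^ K :=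
    pow_unbounded_of_one_lt _ one_lt_two
  refine ⟨M, K, hM0, hmM, fun r => ?_⟩
  have hτ : ∑' p : P1, wt f χ M p * ENNReal.ofReal (1 / nm (p : GaussianInt))
      ≤ ENNReal.ofReal (ε / 36) := by
    refine le_trans ?_ (hT T subset_rfl)
    apply ENNReal.tsum_le_tsum
    intro p
    rw [wt]
    by_cases hp : (p : GaussianInt) ∣ (M : GaussianInt)
    · rw [if_pos hp, zero_mul]; exact bot_le
    · rw [if_neg hp, if_neg (fun h => hp (hTM p h))]
      have h2 := (abs_le.1 (IsRayChar.prod_le hf hχ hm p)).2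
      rw [← ENNReal.ofReal_mul (by linarith)]
      apply le_of_eq
      congr 1
      ring
  have h := sum_approx_le hf hχ hm hM0 hmM K r (ε / 36) (by positivity) hτ
  rw [SS]
  refine h.trans ?_
  have h5 : 2 * (((finite_dvd hM0).toFinset.card : ℝ) * (9 * r ^ 2 / 2 ^ (K + 1)))
      ≤ ε / 2 * r ^ 2 := by
    have h6 : 2 * ((finite_dvd hM0).toFinset.card : ℝ) * 9 ≤ ε / 2 * 2 ^ K := by
      rw [div_lt_iff₀ (by positivity)] at hK
      linarith
    have h7 : 2 * (((finite_dvd hM0).toFinset.card : ℝ) * (9 * r ^ 2 / 2 ^ (K + 1)))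
        = (2 * ((finite_dvd hM0).toFinset.card : ℝ) * 9) * r ^ 2 / 2 ^ (K + 1) := by ring
    rw [h7, div_le_iff₀ (by positivity)]
    calc (2 * ((finite_dvd hM0).toFinset.card : ℝ) * 9) * r ^ 2 ≤ (ε / 2 * 2 ^ K) * r ^ 2 := by
          gcongr
      _ ≤ ε / 2 * r ^ 2 * 2 ^ (K + 1) := by
          have h8 : 0 ≤ ε / 2 * r ^ 2 * 2 ^ K := by positivity
          have h9 : ε / 2 * r ^ 2 * 2 ^ (K + 1) = 2 * (ε / 2 * r ^ 2 * 2 ^ K) := by
            rw [pow_succ]; ring
          rw [h9]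
          linarith
  nlinarith

/-- **The mean value**, in the pretentious case. -/
theorem hasMean_pret (hf : IsBCM f) (hχ : IsRayChar m χ) (hm : 0 < m)
    (hs : Summable (fun p : P1 => (1 - f p * χ p) / nm (p : GaussianInt))) :
    HasMean f (PP f) := by
  classical
  by_cases hprin : ∀ b : GaussianInt, IsCoprime b (m : GaussianInt) → χ b = 1
  · apply hasMean_of_summable hf
    refine hs.congr_cofinite ?_
    have hfin := finite_dvd hm
    rw [Filter.EventuallyEq, Filter.eventually_cofinite]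
    refine hfin.subset ?_
    intro p hp
    by_contra h
    apply hp
    have h1 : IsCoprime (p : GaussianInt) (m : GaussianInt) :=
      ((P1_prime p).irreducible.coprime_iff_not_dvd).2 h
    rw [hprin _ h1, mul_one]
  · push Not at hprin
    obtain ⟨b0, hb0, hne⟩ := hprin
    have h0 : HasMean f 0 := by
      apply hasMean_of_approx
      intro ε hε
      obtain ⟨M, K, hM0, hmM, happ⟩ := exists_gfun hf hχ hm hs ε hε
      have : NeZero (M ^ (K + 1)) := ⟨(pow_pos hM0 _).ne'⟩
      refine ⟨gfun f χ M K, 0, ?_, by simpa using hε.le, happ⟩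
      have := hasMean_per (M ^ (K + 1)) (gfun f χ M K) (fun a b => gfun_per hf hχ hM0 hmM K a b)
      rwa [mper_gfun_zero hf hχ hM0 hmM K b0 hb0 hne] at this
    have hP : PP f = 0 := by
      by_contra h
      have h2 := hasMean_of_summable hf (summable_of_PP hf h)
      exact h (hasMean_unique h2 h0)
    rw [hP]
    exact h0

/-- **Periodic approximation.** -/
theorem exists_per (hf : IsBCM f) (hχ : IsRayChar m χ) (hm : 0 < m)
    (hs : Summable (fun p : P1 => (1 - f p * χ p) / nm (p : GaussianInt))) (ε : ℝ) (hε : 0 < ε) :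
    ∃ (Q : ℕ) (_ : NeZero Q) (g : GaussianInt → ℝ), Per Q g ∧ (∀ n, |g n| ≤ 1) ∧
      (∀ r : ℝ, SS (fun n => |f n - g n|) r ≤ ε * r ^ 2) ∧ |mper Q g - PP f| ≤ ε := by
  have hc := cD_pos
  set ε' := min ε (cD * ε) with hε'
  have hε'0 : 0 < ε' := lt_min hε (mul_pos hc hε)
  obtain ⟨M, K, hM0, hmM, happ⟩ := exists_gfun hf hχ hm hs ε' hε'0
  have : NeZero (M ^ (K + 1)) := ⟨(pow_pos hM0 _).ne'⟩
  have hper : Per (M ^ (K + 1)) (gfun f χ M K) := fun a b => gfun_per hf hχ hM0 hmM K a b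
  refine ⟨M ^ (K + 1), inferInstance, gfun f χ M K, hper, gfun_abs_le hf hχ hm hM0 K, ?_, ?_⟩
  · intro r
    refine (happ r).trans ?_
    have : ε' ≤ ε := min_le_left _ _
    gcongr
  · have h1 := hasMean_dist_le (hasMean_pret hf hχ hm hs) (hasMean_per _ _ hper) happ
    have h2 : ε' ≤ cD * ε := min_le_right _ _
    have h3 := h1.trans h2
    exact le_of_mul_le_mul_left h3 hc

end

end Pool.Agent.GaussPret
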