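import Pool.Agent.Hhelper49.GaussPret.Mult

set_option autoImplicit false

open Filter Topology MeasureTheory
open scoped ENNReal

namespace Pool.Agent.GaussPret

open scoped Classical in
/-- the cost of `n`: the sum of the weights of the primes dividing `n`, with multiplicity. -/
noncomputable def cost (w : P1 → ℝ≥0∞) (n : GaussianInt) : ℝ≥0∞ :=
  ∑' p : P1, ∑' j : ℕ, if (p : GaussianInt) ^ (j + 1) ∣ n then w p else 0

theorem cost_mono_dvd (w : P1 → ℝ≥0∞) {a b : GaussianInt} (h : a ∣ b) : cost w a ≤ cost w b := by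
  classical
  apply ENNReal.tsum_le_tsum
  intro p
  apply ENNReal.tsum_le_tsum
  intro j
  by_cases h1 : (p : GaussianInt) ^ (j + 1) ∣ a
  · rw [if_pos h1, if_pos (h1.trans h)]
  · rw [if_neg h1]; exact bot_le

theorem cost_prime_mul (w : P1 → ℝ≥0∞) {q n : GaussianInt} (p0 : P1)
    (h : Associated (p0 : GaussianInt) q) : w p0 + cost w n ≤ cost w (q * n) := by
  classical
  have hle : cost w n + ∑' p : P1, (if p = p0 then w p0 else 0) ≤ cost w (q * n) := by
    rw [cost, ← ENNReal.tsum_add]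
    apply ENNReal.tsum_le_tsum
    intro p
    by_cases hp : p = p0
    · subst hp
      rw [if_pos rfl]
      have h1 : ∑' j : ℕ, (if (p : GaussianInt) ^ (j + 1) ∣ q * n then w p else 0)
          = (if (p : GaussianInt) ^ (0 + 1) ∣ q * n then w p else 0)
            + ∑' j : ℕ, (if (p : GaussianInt) ^ (j + 1 + 1) ∣ q * n then w p else 0) :=
        tsum_eq_zero_add' ENNReal.summable
      rw [h1, add_comm]
      apply add_le_add
      · rw [if_pos]
        rw [zero_add, pow_one]
        exact (h.dvd).trans (dvd_mul_right _ _)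
      · apply ENNReal.tsum_le_tsum
        intro j
        by_cases h2 : (p : GaussianInt) ^ (j + 1) ∣ n
        · rw [if_pos h2, if_pos]
          rw [pow_succ, mul_comm]
          exact mul_dvd_mul h.dvd h2
        · rw [if_neg h2]; exact bot_le
    · rw [if_neg hp, add_zero]
      apply ENNReal.tsum_le_tsum
      intro j
      by_cases h2 : (p : GaussianInt) ^ (j + 1) ∣ n
      · rw [if_pos h2, if_pos (h2.trans (dvd_mul_left _ _))]
      · rw [if_neg h2]; exact bot_le
  rwa [tsum_ite_eq, add_comm] at hle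

theorem tsum_geom_le {N : ℝ} (hN : 2 ≤ N) (c : ℝ) (hc : 0 ≤ c) :
    ∑' j : ℕ, ENNReal.ofReal (c / N ^ (j + 1)) ≤ ENNReal.ofReal (2 * c / N) := by
  have hN0 : 0 < N := by linarith
  have h1 : ∀ j : ℕ, c / N ^ (j + 1) = (c / N) * (N⁻¹) ^ j := by
    intro j; rw [pow_succ, inv_pow]; field_simp
  have hr : N⁻¹ < 1 := by
    rw [inv_lt_one_iff₀]; right; linarith
  have hs : Summable (fun j : ℕ => (c / N) * (N⁻¹) ^ j) :=
    (summable_geometric_of_lt_one (by positivity) hr).mul_left _
  have h2 : ∑' j : ℕ, ENNReal.ofReal (c / N ^ (j + 1))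
      = ENNReal.ofReal (∑' j : ℕ, (c / N) * (N⁻¹) ^ j) := by
    rw [ENNReal.ofReal_tsum_of_nonneg (fun j => by positivity) hs]
    congr 1
    ext j
    rw [h1]
  rw [h2, tsum_mul_left, tsum_geometric_of_lt_one (by positivity) hr]
  apply ENNReal.ofReal_le_ofReal
  have h3 : (1 - N⁻¹)⁻¹ ≤ 2 := by
    rw [inv_le_comm₀ _ (by norm_num)]
    · have : N⁻¹ ≤ 2⁻¹ := inv_anti₀ (by norm_num) hN
      linarith
    · linarith
  calc c / N * (1 - N⁻¹)⁻¹ ≤ c / N * 2 := by gcongr
    _ = 2 * c / N := by ring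

theorem sum_cost_le (w : P1 → ℝ≥0∞) (r : ℝ) :
    ∑ n ∈ ball r, cost w n ≤ ENNReal.ofReal (18 * r ^ 2) *
      ∑' p : P1, w p * ENNReal.ofReal (1 / nm (p : GaussianInt)) := by
  classical
  have h1 : ∑ n ∈ ball r, cost w n = ∑' p : P1, ∑' j : ℕ,
      w p * ((((ball r).filter (fun n => (p : GaussianInt) ^ (j + 1) ∣ n)).card : ℕ) : ℝ≥0∞) := by
    simp only [cost]
    rw [← Summable.tsum_finsetSum (fun _ _ => ENNReal.summable)]
    congr 1
    ext p
    rw [← Summable.tsum_finsetSum (fun _ _ => ENNReal.summable)]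
    congr 1
    ext j
    rw [← Finset.sum_filter, Finset.sum_const, nsmul_eq_mul, mul_comm]
  rw [h1, ← ENNReal.tsum_mul_left]
  apply ENNReal.tsum_le_tsum
  intro p
  have hp0 : (p : GaussianInt) ≠ 0 := P1_ne_zero p
  have hp2 : 2 ≤ nm (p : GaussianInt) := two_le_nm_of_prime (P1_prime p)
  calc ∑' j : ℕ,
        w p * ((((ball r).filter (fun n => (p : GaussianInt) ^ (j + 1) ∣ n)).card : ℕ) : ℝ≥0∞)
      ≤ ∑' j : ℕ, w p * ENNReal.ofReal (9 * r ^ 2 / nm (p : GaussianInt) ^ (j + 1)) := by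
        apply ENNReal.tsum_le_tsum
        intro j
        gcongr
        rw [← ENNReal.ofReal_natCast]
        apply ENNReal.ofReal_le_ofReal
        have := card_ball_dvd_le r ((p : GaussianInt) ^ (j + 1)) (pow_ne_zero _ hp0)
        rw [nm_pow] at this
        convert this
    _ = w p * ∑' j : ℕ, ENNReal.ofReal (9 * r ^ 2 / nm (p : GaussianInt) ^ (j + 1)) :=
        ENNReal.tsum_mul_left
    _ ≤ w p * ENNReal.ofReal (2 * (9 * r ^ 2) / nm (p : GaussianInt)) := by
        gcongr
        exact tsum_geom_le hp2 _ (by positivity)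
    _ = ENNReal.ofReal (18 * r ^ 2) * (w p * ENNReal.ofReal (1 / nm (p : GaussianInt))) := by
        have : 2 * (9 * r ^ 2) / nm (p : GaussianInt)
            = (18 * r ^ 2) * (1 / nm (p : GaussianInt)) := by ring
        rw [this, ENNReal.ofReal_mul (by positivity)]
        ring

end Pool.Agent.GaussPret
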