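import Mathlib

set_option autoImplicit false

/-!
# Averages of multiplicative functions on the Gaussian integers over short windows
-/

open Filter Topology MeasureTheory

namespace Pool.Agent.GaussPret

/-- Gaussian primes `p` with `Re p > 0` and `Im p ≥ 0`. -/
abbrev P1 : Type := {p : GaussianInt // Prime p ∧ 0 < p.re ∧ 0 ≤ p.im}

/-- The norm `|z|^2` as a real number. -/
noncomputable def nm (z : GaussianInt) : ℝ := ((Zsqrtd.norm z : ℤ) : ℝ)

/-- The product `P(f)`. -/
noncomputable def PP (f : GaussianInt → ℝ) : ℝ :=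
  ∏' p : P1, (nm (p : GaussianInt) - 1) / (nm (p : GaussianInt) - f p)

/-- Bounded completely multiplicative real functions on the nonzero Gaussian integers
with `f(i) = 1`. (The value at `0` is irrelevant.) -/
structure IsBCM (f : GaussianInt → ℝ) : Prop where
  mul : ∀ m n : GaussianInt, m ≠ 0 → n ≠ 0 → f (m * n) = f m * f n
  bdd : ∃ C : ℝ, ∀ n : GaussianInt, n ≠ 0 → |f n| ≤ C
  map_I : f ⟨0, 1⟩ = 1

/-- Real characters modulo the natural number `m` on the Gaussian integers, trivial on units. -/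
structure IsRayChar (m : ℕ) (χ : GaussianInt → ℝ) : Prop where
  mul : ∀ a b : GaussianInt, χ (a * b) = χ a * χ b
  per : ∀ a b : GaussianInt, χ (a + (m : GaussianInt) * b) = χ a
  zero_iff : ∀ a : GaussianInt, χ a = 0 ↔ ¬ IsCoprime a (m : GaussianInt)
  map_I : χ ⟨0, 1⟩ = 1

/-- Dilated Folner sequences: apart from the point `0`, the set `Φ N` is the set of Gaussian
integers in `k_N U`, where `U` is Jordan measurable of positive measure, `k_N > 0` and
`k_N → ∞`. -/
def IsDilatedFolner (Φ : ℕ → Finset GaussianInt) : Prop :=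
  ∃ (U : Set ℂ) (k : ℕ → ℝ), Bornology.IsBounded U ∧ volume (frontier U) = 0 ∧ 0 < volume U ∧
    (∀ N, 0 < k N) ∧ Tendsto k atTop atTop ∧
    ∀ (N : ℕ) (n : GaussianInt), n ≠ 0 →
      (n ∈ Φ N ↔ ∃ u ∈ U, GaussianInt.toComplex n = (k N : ℂ) * u)

/-- The average of `g` over the finite set `A`. -/
noncomputable def avg (A : Finset GaussianInt) (g : GaussianInt → ℝ) : ℝ :=
  (∑ n ∈ A, g n) / (A.card : ℝ)

/-- The translated window `n + A`, without the point `0`. -/
def win (A : Finset GaussianInt) (n : GaussianInt) : Finset GaussianInt :=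
  (A.image (fun h => n + h)).erase 0

/-- The centred square `|Re n| ≤ N`, `|Im n| ≤ N`. -/
noncomputable def sqr (N : ℕ) : Finset GaussianInt :=
  ((Finset.Icc (-(N : ℤ)) N) ×ˢ (Finset.Icc (-(N : ℤ)) N)).image
    (fun x : ℤ × ℤ => (⟨x.1, x.2⟩ : GaussianInt))

/-- The assertion of the problem for `f` and the sequence `Φ`: for every `H` the limit `L H` of
the outer averages exists, and `L H → 0`. -/
def ShortAvg (f : GaussianInt → ℝ) (Φ : ℕ → Finset GaussianInt) : Prop :=
  ∃ L : ℕ → ℝ,
    (∀ H : ℕ, Tendsto (fun N : ℕ => avg (Φ N) (fun n => |avg (win (Φ H) n) f - PP f|)) atTop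
      (𝓝 (L H))) ∧ Tendsto L atTop (𝓝 0)

end Pool.Agent.GaussPret
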