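import Pool.Agent.Hhelper49.GaussPret.Basic

set_option autoImplicit false

open Filter Topology MeasureTheory
open scoped ENNReal

namespace Pool.Agent.GaussPret

/-! ### Lattice points in dilated Jordan measurable sets -/

theorem finite_pts {U : Set ℂ} (hU : Bornology.IsBounded U) (κ : ℝ) (s : ℂ) :
    {b : GaussianInt | ∃ u ∈ U, GaussianInt.toComplex b = (κ : ℂ) * u + s}.Finite := by
  obtain ⟨R, hR⟩ := hU.exists_norm_le
  apply (finite_ball (|κ| * R + ‖s‖)).subset
  rintro b ⟨u, hu, hb⟩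
  show ‖GaussianInt.toComplex b‖ ≤ _
  rw [hb]
  calc ‖(κ : ℂ) * u + s‖ ≤ ‖(κ : ℂ) * u‖ + ‖s‖ := norm_add_le _ _
    _ ≤ |κ| * R + ‖s‖ := by
        rw [norm_mul, Complex.norm_real, Real.norm_eq_abs]
        gcongr
        exact hR u hu

/-- The Gaussian integers in `κ U + s`. -/
noncomputable def pts {U : Set ℂ} (hU : Bornology.IsBounded U) (κ : ℝ) (s : ℂ) :
    Finset GaussianInt := (finite_pts hU κ s).toFinset

theorem mem_pts {U : Set ℂ} (hU : Bornology.IsBounded U) {κ : ℝ} {s : ℂ} {b : GaussianInt} :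
    b ∈ pts hU κ s ↔ ∃ u ∈ U, GaussianInt.toComplex b = (κ : ℂ) * u + s := by
  simp [pts]

/-- the corner of the cell containing `z`. -/
noncomputable def fl (z : ℂ) : GaussianInt := ⟨⌊z.re⌋, ⌊z.im⌋⟩

theorem norm_sub_fl (z : ℂ) : ‖z - GaussianInt.toComplex (fl z)‖ ≤ 2 := by
  have h1 : (z - GaussianInt.toComplex (fl z)).re = Int.fract z.re := by
    rw [Complex.sub_re, fl, GaussianInt.re_toComplex]; rfl
  have h2 : (z - GaussianInt.toComplex (fl z)).im = Int.fract z.im := by
    rw [Complex.sub_im, fl, GaussianInt.im_toComplex]; rfl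
  calc ‖z - GaussianInt.toComplex (fl z)‖
      ≤ |(z - GaussianInt.toComplex (fl z)).re| + |(z - GaussianInt.toComplex (fl z)).im| :=
        Complex.norm_le_abs_re_add_abs_im _
    _ ≤ 1 + 1 := by
        rw [h1, h2, abs_of_nonneg (Int.fract_nonneg _), abs_of_nonneg (Int.fract_nonneg _)]
        exact add_le_add (Int.fract_lt_one _).le (Int.fract_lt_one _).le
    _ = 2 := by norm_num

/-- the cell with corner `b` -/
def cell (b : GaussianInt) : Set ℂ := {z | fl z = b}

theorem cell_eq (b : GaussianInt) : cell b = Complex.measurableEquivRealProd ⁻¹'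
    (Set.Ico (b.re : ℝ) (b.re + 1) ×ˢ Set.Ico (b.im : ℝ) (b.im + 1)) := by
  ext z
  simp only [cell, Set.mem_preimage, Set.mem_prod, Set.mem_Ico]
  show fl z = b ↔ _
  rw [fl, Zsqrtd.ext_iff]
  simp only [Int.floor_eq_iff]
  rfl

theorem measurableSet_cell (b : GaussianInt) : MeasurableSet (cell b) := by
  rw [cell_eq]
  exact Complex.measurableEquivRealProd.measurable (measurableSet_Ico.prod measurableSet_Ico)

theorem volume_cell (b : GaussianInt) : volume (cell b) = 1 := by
  rw [cell_eq, (Complex.volume_preserving_equiv_real_prod).measure_preimage_equiv,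
    Measure.volume_eq_prod, Measure.prod_prod, Real.volume_Ico, Real.volume_Ico]
  simp

theorem volume_preimage_affine (κ : ℝ) (hκ : 0 < κ) (s : ℂ) (C : Set ℂ) :
    volume ((fun u : ℂ => (κ : ℂ) * u + s) ⁻¹' C) = ENNReal.ofReal ((κ ^ 2)⁻¹) * volume C := by
  have h1 : (fun u : ℂ => (κ : ℂ) * u + s) ⁻¹' C =
      (fun u : ℂ => κ • u) ⁻¹' ((fun v : ℂ => v + s) ⁻¹' C) := by
    ext u
    simp only [Set.mem_preimage, Complex.real_smul]
  rw [h1, Measure.addHaar_preimage_smul volume hκ.ne', measure_preimage_add_right,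
    Complex.finrank_real_complex, abs_of_nonneg (by positivity)]

theorem segment_inter_frontier {U : Set ℂ} {u v : ℂ} (hu : u ∈ U) (hv : v ∉ U) :
    ∃ w ∈ segment ℝ u v, w ∈ frontier U := by
  by_contra h
  push Not at h
  have hpre : IsPreconnected (segment ℝ u v) := (convex_segment u v).isPreconnected
  have key : ∀ z ∈ segment ℝ u v, z ∈ interior U ∨ z ∈ (closure U)ᶜ := by
    intro z hz
    by_cases hc : z ∈ closure U
    · left
      by_contra hi
      exact h z hz ⟨hc, hi⟩
    · right; exact hc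
  have hu1 : u ∈ interior U := by
    rcases key u (left_mem_segment ℝ u v) with h1 | h1
    · exact h1
    · exact absurd (subset_closure hu) h1
  have hv1 : v ∈ (closure U)ᶜ := by
    rcases key v (right_mem_segment ℝ u v) with h1 | h1
    · exact absurd (interior_subset h1) hv
    · exact h1
  obtain ⟨z, _, hz1, hz2⟩ := hpre (interior U) (closure U)ᶜ isOpen_interior
    isClosed_closure.isOpen_compl key ⟨u, left_mem_segment ℝ u v, hu1⟩
    ⟨v, right_mem_segment ℝ u v, hv1⟩
  exact hz2 (subset_closure (interior_subset hz1))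

theorem mem_cthick {U : Set ℂ} {u v : ℂ} {δ : ℝ} (h : u ∈ U ∧ v ∉ U ∨ u ∉ U ∧ v ∈ U)
    (hd : dist u v ≤ δ) : u ∈ Metric.cthickening δ (frontier U) := by
  rcases h with ⟨h1, h2⟩ | ⟨h1, h2⟩
  · obtain ⟨w, hw, hwf⟩ := segment_inter_frontier h1 h2
    apply Metric.mem_cthickening_of_dist_le u w δ _ hwf
    have := dist_add_dist_of_mem_segment hw
    linarith [dist_nonneg (x := w) (y := v)]
  · obtain ⟨w, hw, hwf⟩ := segment_inter_frontier h2 h1
    apply Metric.mem_cthickening_of_dist_le u w δ _ hwf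
    have := dist_add_dist_of_mem_segment hw
    rw [dist_comm v w, dist_comm w u, dist_comm v u] at this
    linarith [dist_nonneg (x := w) (y := v)]

/-- Counting lattice points, the basic comparison. -/
theorem card_pts_compare {U : Set ℂ} (hU : Bornology.IsBounded U) (κ : ℝ) (hκ : 0 < κ) (s : ℂ) :
    (((pts hU κ s).card : ℕ) : ℝ≥0∞) * ENNReal.ofReal ((κ ^ 2)⁻¹) ≤
        volume U + volume (Metric.cthickening (2 / κ) (frontier U)) ∧
    volume U ≤ (((pts hU κ s).card : ℕ) : ℝ≥0∞) * ENNReal.ofReal ((κ ^ 2)⁻¹) +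
        volume (Metric.cthickening (2 / κ) (frontier U)) := by
  classical
  set ψ : ℂ → ℂ := fun u : ℂ => (κ : ℂ) * u + s with hψ
  have hκc : (κ : ℂ) ≠ 0 := by exact_mod_cast hκ.ne'
  set E : Set ℂ := ⋃ b ∈ pts hU κ s, ψ ⁻¹' (cell b) with hE
  have hψm : Measurable ψ := by fun_prop
  have hEvol : volume E = (((pts hU κ s).card : ℕ) : ℝ≥0∞) * ENNReal.ofReal ((κ ^ 2)⁻¹) := by
    rw [hE, measure_biUnion_finset]
    · have : ∀ b ∈ pts hU κ s, volume (ψ ⁻¹' (cell b)) = ENNReal.ofReal ((κ ^ 2)⁻¹) := by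
        intro b _
        rw [hψ, volume_preimage_affine κ hκ, volume_cell, mul_one]
      rw [Finset.sum_congr rfl this, Finset.sum_const, nsmul_eq_mul]
    · intro b _ b' _ hbb
      apply Set.disjoint_left.2
      intro u hu hu'
      apply hbb
      have h1 : fl (ψ u) = b := hu
      have h2 : fl (ψ u) = b' := hu'
      rw [← h1, ← h2]
    · intro b _
      exact hψm (measurableSet_cell b)
  have hmem : ∀ u : ℂ, u ∈ E ↔ (GaussianInt.toComplex (fl (ψ u)) - s) / κ ∈ U := by
    intro u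
    have h1 : u ∈ E ↔ fl (ψ u) ∈ pts hU κ s := by
      rw [hE, Set.mem_iUnion₂]
      constructor
      · rintro ⟨b, hb, hu⟩
        have h1 : fl (ψ u) = b := hu
        rw [h1]; exact hb
      · intro h
        exact ⟨_, h, rfl⟩
    rw [h1, mem_pts]
    constructor
    · rintro ⟨v, hv, hv'⟩
      rw [hv', add_sub_cancel_right, mul_div_cancel_left₀ _ hκc]
      exact hv
    · intro h
      refine ⟨_, h, ?_⟩
      rw [mul_div_cancel₀ _ hκc]
      ring
  have hdist : ∀ u : ℂ, dist u ((GaussianInt.toComplex (fl (ψ u)) - s) / κ) ≤ 2 / κ := by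
    intro u
    have h1 : u - (GaussianInt.toComplex (fl (ψ u)) - s) / κ
        = (ψ u - GaussianInt.toComplex (fl (ψ u))) / κ := by
      rw [hψ]; field_simp; ring
    rw [dist_eq_norm, h1, norm_div, Complex.norm_real, Real.norm_eq_abs, abs_of_pos hκ]
    exact div_le_div_of_nonneg_right (norm_sub_fl _) hκ.le
  constructor
  · rw [← hEvol]
    refine (measure_mono ?_).trans (measure_union_le U _)
    intro u hu
    by_cases h : u ∈ U
    · exact Or.inl h
    · right
      exact mem_cthick (Or.inr ⟨h, (hmem u).1 hu⟩) (hdist u)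
  · rw [← hEvol]
    refine (measure_mono ?_).trans (measure_union_le E _)
    intro u hu
    by_cases h : u ∈ E
    · exact Or.inl h
    · right
      exact mem_cthick (Or.inl ⟨hu, fun h' => h ((hmem u).2 h')⟩) (hdist u)

/-- **Lattice points in `κ U + s`, uniformly in `s`.** -/
theorem card_pts_asymp {U : Set ℂ} (hU : Bornology.IsBounded U) (hF : volume (frontier U) = 0)
    (ε : ℝ) (hε : 0 < ε) : ∃ κ₀ : ℝ, 0 < κ₀ ∧ ∀ κ : ℝ, κ₀ ≤ κ → ∀ s : ℂ,
      |((pts hU κ s).card : ℝ) - κ ^ 2 * (volume U).toReal| ≤ ε * κ ^ 2 := by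
  have hc : IsCompact (frontier U) :=
    Metric.isCompact_of_isClosed_isBounded isClosed_frontier
      (hU.closure.subset frontier_subset_closure)
  have ht := tendsto_measure_cthickening_of_isCompact (μ := (volume : Measure ℂ)) hc
  rw [hF] at ht
  have hev : ∀ᶠ r : ℝ in 𝓝 0,
      volume (Metric.cthickening r (frontier U)) < ENNReal.ofReal ε :=
    ht.eventually (gt_mem_nhds (by simpa using hε))
  obtain ⟨δ, hδ, hδ'⟩ := Metric.eventually_nhds_iff.1 hev
  refine ⟨4 / δ, by positivity, fun κ hκ s => ?_⟩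
  have hκ0 : 0 < κ := lt_of_lt_of_le (by positivity) hκ
  have h1 : volume (Metric.cthickening (2 / κ) (frontier U)) < ENNReal.ofReal ε := by
    apply hδ'
    rw [dist_zero_right, Real.norm_eq_abs, abs_of_pos (by positivity)]
    rw [div_lt_iff₀ hκ0]
    rw [div_le_iff₀ hδ] at hκ
    linarith
  obtain ⟨h2, h3⟩ := card_pts_compare hU κ hκ0 s
  have hVfin : volume U ≠ ∞ := hU.measure_lt_top.ne
  set c : ℝ := ((pts hU κ s).card : ℝ) with hcdef
  have hcE : (((pts hU κ s).card : ℕ) : ℝ≥0∞) * ENNReal.ofReal ((κ ^ 2)⁻¹)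
      = ENNReal.ofReal (c * (κ ^ 2)⁻¹) := by
    rw [ENNReal.ofReal_mul (by positivity), hcdef, ENNReal.ofReal_natCast]
  have hVE : volume U = ENNReal.ofReal ((volume U).toReal) := (ENNReal.ofReal_toReal hVfin).symm
  rw [hcE] at h2 h3
  have h4 : c * (κ ^ 2)⁻¹ ≤ (volume U).toReal + ε := by
    have : ENNReal.ofReal (c * (κ ^ 2)⁻¹) ≤ ENNReal.ofReal ((volume U).toReal + ε) := by
      rw [ENNReal.ofReal_add ENNReal.toReal_nonneg hε.le, ← hVE]
      exact h2.trans (by gcongr)
    exact (ENNReal.ofReal_le_ofReal_iff (by positivity)).1 this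
  have hc0 : 0 ≤ c * (κ ^ 2)⁻¹ := mul_nonneg (Nat.cast_nonneg _) (inv_nonneg.2 (sq_nonneg _))
  have h5 : (volume U).toReal ≤ c * (κ ^ 2)⁻¹ + ε := by
    have : ENNReal.ofReal ((volume U).toReal) ≤ ENNReal.ofReal (c * (κ ^ 2)⁻¹ + ε) := by
      rw [ENNReal.ofReal_add hc0 hε.le, ← hVE]
      exact h3.trans (by gcongr)
    exact (ENNReal.ofReal_le_ofReal_iff (add_nonneg hc0 hε.le)).1 this
  have hk2 : 0 < κ ^ 2 := by positivity
  have h6 : c = (c * (κ ^ 2)⁻¹) * κ ^ 2 := by field_simp
  rw [abs_le]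
  constructor
  · nlinarith
  · nlinarith

end Pool.Agent.GaussPret
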