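import Pool.Agent.Hhelper49.GaussPret.Step

set_option autoImplicit false

open Filter Topology MeasureTheory
open scoped ENNReal

namespace Pool.Agent.GaussPret

/-! ### The multiplicative functions supported on finitely many primes -/

/-- the truncation of `f` to the primes in `T`. -/
noncomputable def Fm (f : GaussianInt → ℝ) (T : Finset P1) (n : GaussianInt) : ℝ :=
  ∏ p ∈ T, f p ^ multiplicity (p : GaussianInt) n

theorem mult_mul (p : P1) {a b : GaussianInt} (ha : a ≠ 0) (hb : b ≠ 0) :
    multiplicity (p : GaussianInt) (a * b) =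
      multiplicity (p : GaussianInt) a + multiplicity (p : GaussianInt) b :=
  multiplicity_mul (P1_prime p) (FiniteMultiplicity.of_prime_left (P1_prime p) (mul_ne_zero ha hb))

theorem mult_prime [DecidableEq P1] (p q : P1) :
    multiplicity (p : GaussianInt) (q : GaussianInt) = if p = q then 1 else 0 := by
  split_ifs with h
  · rw [h]
    exact multiplicity_self
  · rw [multiplicity_eq_zero]
    intro h'
    exact h (P1_eq_of_dvd h')

section

variable {f : GaussianInt → ℝ}

theorem Fm_prime_mul [DecidableEq P1] (T : Finset P1) (q : P1) {n : GaussianInt} (hn : n ≠ 0) :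
    Fm f T ((q : GaussianInt) * n) = (if q ∈ T then f q else 1) * Fm f T n := by
  rw [Fm, Fm]
  have h1 : ∀ p ∈ T, f p ^ multiplicity (p : GaussianInt) ((q : GaussianInt) * n)
      = (if p = q then f q else 1) * f p ^ multiplicity (p : GaussianInt) n := by
    intro p _
    rw [mult_mul p (P1_ne_zero q) hn, pow_add, mult_prime]
    split_ifs with h
    · rw [h, pow_one]
    · rw [pow_zero]
  rw [Finset.prod_congr rfl h1, Finset.prod_mul_distrib]
  congr 1
  rw [Finset.prod_ite_eq']

theorem Fm_assoc (T : Finset P1) {a b : GaussianInt} (h : Associated a b) :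
    Fm f T a = Fm f T b := by
  rw [Fm, Fm]
  apply Finset.prod_congr rfl
  intro p _
  rw [multiplicity_eq_of_associated_right h]

theorem Fm_one (T : Finset P1) : Fm f T 1 = 1 := by
  rw [Fm]
  apply Finset.prod_eq_one
  intro p _
  have : multiplicity (p : GaussianInt) 1 = 0 := by
    rw [multiplicity_eq_zero]
    intro h
    exact (P1_prime p).not_isUnit (isUnit_of_dvd_one h)
  rw [this, pow_zero]

theorem Fm_abs_le (hf : IsBCM f) (T : Finset P1) (n : GaussianInt) : |Fm f T n| ≤ 1 := by
  rw [Fm, Finset.abs_prod]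
  apply Finset.prod_le_one
  · intro _ _; exact abs_nonneg _
  · intro p _
    rw [abs_pow]
    exact pow_le_one₀ (abs_nonneg _) (hf.abs_le_one (P1_ne_zero p))

/-- the mean of the truncation -/
theorem hasMean_Fm (hf : IsBCM f) (T : Finset P1) :
    HasMean (Fm f T) (∏ p ∈ T, (nm (p : GaussianInt) - 1) / (nm (p : GaussianInt) - f p)) := by
  classical
  induction T using Finset.induction_on with
  | empty =>
    have : Fm f ∅ = fun _ => 1 := by
      funext n; simp [Fm]
    rw [this, Finset.prod_empty]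
    exact hasMean_one
  | insert q T hq ih =>
    rw [Finset.prod_insert hq, mul_comm]
    apply hasMean_step (P1_prime q) ih
    · intro n _
      exact Fm_abs_le hf _ n
    · exact hf.abs_le_one (P1_ne_zero q)
    · intro n hn
      rw [Fm_prime_mul T q hn, if_neg hq, one_mul]
    · intro n hn
      rw [Fm_prime_mul _ q hn, if_pos (Finset.mem_insert_self _ _)]
    · intro n _ hqn
      rw [Fm, Finset.prod_insert hq, multiplicity_eq_zero.2 hqn, pow_zero, one_mul, Fm]

open scoped Classical in
/-- weights -/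
noncomputable def wT (f : GaussianInt → ℝ) (T : Finset P1) (p : P1) : ℝ≥0∞ :=
  if p ∈ T then 0 else ENNReal.ofReal (1 - f p)

theorem Fm_approx (hf : IsBCM f) (T : Finset P1) (n : GaussianInt) : n ≠ 0 →
      ENNReal.ofReal |f n - Fm f T n| ≤ cost (wT f T) n := by
  classical
  induction n using UniqueFactorizationMonoid.induction_on_prime with
  | h₁ => intro h; exact absurd rfl h
  | h₂ u hu =>
    intro _
    rw [hf.map_unit hu, ← Fm_assoc T (associated_one_iff_isUnit.2 hu).symm, Fm_one]
    simp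
  | h₃ a q ha hq ih =>
    intro _
    have hq0 : q ≠ 0 := hq.ne_zero
    obtain ⟨p, hp⟩ := exists_P1 hq
    have hfq : f q = f p := (hf.map_assoc hp (P1_ne_zero p)).symm
    have hFq : Fm f T (q * a) = (if p ∈ T then f p else 1) * Fm f T a := by
      rw [← Fm_prime_mul T p ha]
      exact Fm_assoc T (hp.symm.mul_right a)
    have hfp : |f p| ≤ 1 := hf.abs_le_one (P1_ne_zero p)
    have hfp1 : 0 ≤ 1 - f p := by linarith [(abs_le.1 hfp).2]
    rw [hf.mul q a hq0 ha, hfq, hFq]
    by_cases hpT : p ∈ T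
    · rw [if_pos hpT, ← mul_sub, abs_mul]
      calc ENNReal.ofReal (|f p| * |f a - Fm f T a|) ≤ ENNReal.ofReal |f a - Fm f T a| := by
            apply ENNReal.ofReal_le_ofReal
            nlinarith [abs_nonneg (f a - Fm f T a)]
        _ ≤ cost (wT f T) a := ih ha
        _ ≤ cost (wT f T) (q * a) := cost_mono_dvd _ (dvd_mul_left _ _)
    · rw [if_neg hpT, one_mul]
      have hw : wT f T p = ENNReal.ofReal (1 - f p) := by rw [wT, if_neg hpT]
      have h1 : |f p * f a - Fm f T a| ≤ (1 - f p) + |f a - Fm f T a| := by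
        have e : f p * f a - Fm f T a = f p * (f a - Fm f T a) + Fm f T a * (f p - 1) := by ring
        rw [e]
        have hFa : |Fm f T a| ≤ 1 := Fm_abs_le hf T a
        calc |f p * (f a - Fm f T a) + Fm f T a * (f p - 1)|
            ≤ |f p * (f a - Fm f T a)| + |Fm f T a * (f p - 1)| := abs_add_le _ _
          _ ≤ |f a - Fm f T a| + |f p - 1| := by
              rw [abs_mul, abs_mul]
              nlinarith [abs_nonneg (f a - Fm f T a), abs_nonneg (f p - 1)]
          _ = (1 - f p) + |f a - Fm f T a| := by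
              rw [abs_sub_comm (f p) 1, abs_of_nonneg hfp1]; ring
      calc ENNReal.ofReal |f p * f a - Fm f T a|
          ≤ ENNReal.ofReal ((1 - f p) + |f a - Fm f T a|) := ENNReal.ofReal_le_ofReal h1
        _ = wT f T p + ENNReal.ofReal |f a - Fm f T a| := by
            rw [ENNReal.ofReal_add hfp1 (abs_nonneg _), hw]
        _ ≤ wT f T p + cost (wT f T) a := by gcongr; exact ih ha
        _ ≤ cost (wT f T) (q * a) := cost_prime_mul _ p hp

/-- the sum of the errors -/
theorem Fm_sum_le (hf : IsBCM f) (T : Finset P1) (r τ : ℝ)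
    (hτ0 : 0 ≤ τ)
    (hτ : ∑' p : P1, wT f T p * ENNReal.ofReal (1 / nm (p : GaussianInt)) ≤ ENNReal.ofReal τ) :
    SS (fun n => |f n - Fm f T n|) r ≤ 18 * τ * r ^ 2 := by
  have h1 : ENNReal.ofReal (SS (fun n => |f n - Fm f T n|) r) ≤
      ENNReal.ofReal (18 * τ * r ^ 2) := by
    rw [SS, ENNReal.ofReal_sum_of_nonneg (fun _ _ => abs_nonneg _)]
    calc ∑ n ∈ ball r, ENNReal.ofReal |f n - Fm f T n|
        ≤ ∑ n ∈ ball r, cost (wT f T) n := by
          apply Finset.sum_le_sum
          intro n hn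
          exact Fm_approx hf T n (mem_ball.1 hn).1
      _ ≤ ENNReal.ofReal (18 * r ^ 2) *
            ∑' p : P1, wT f T p * ENNReal.ofReal (1 / nm (p : GaussianInt)) := sum_cost_le _ _
      _ ≤ ENNReal.ofReal (18 * r ^ 2) * ENNReal.ofReal τ := by gcongr
      _ = ENNReal.ofReal (18 * τ * r ^ 2) := by
          rw [← ENNReal.ofReal_mul (by positivity)]
          congr 1
          ring
  exact (ENNReal.ofReal_le_ofReal_iff (by positivity)).1 h1

end

open scoped Classical in
/-- small tails -/
theorem exists_tail {w : P1 → ℝ≥0∞} (hw : ∑' p : P1, w p ≠ ∞) {τ : ℝ} (hτ : 0 < τ) :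
    ∃ T : Finset P1, ∀ T' : Finset P1, T ⊆ T' →
      ∑' p : P1, (if p ∈ T' then 0 else w p) ≤ ENNReal.ofReal τ := by
  have h := ENNReal.tendsto_tsum_compl_atTop_zero hw
  have h2 : ∀ᶠ s : Finset P1 in atTop, ∑' b : { x // x ∉ s }, w b < ENNReal.ofReal τ :=
    h.eventually (gt_mem_nhds (by simpa using hτ))
  obtain ⟨T, hT⟩ := eventually_atTop.1 h2
  refine ⟨T, fun T' hTT' => ?_⟩
  refine le_trans (le_of_eq ?_) (hT T' hTT').le
  have hsub : ∑' b : { x // x ∉ T' }, w b = ∑' p : P1, ({x | x ∉ T'} : Set P1).indicator w p :=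
    tsum_subtype ({x | x ∉ T'} : Set P1) w
  rw [hsub]
  congr 1
  ext p
  by_cases hp : p ∈ T'
  · rw [if_pos hp, Set.indicator_of_notMem]
    intro h; exact h hp
  · rw [if_neg hp, Set.indicator_of_mem]
    exact hp

/-! ### The product -/

section

variable {f : GaussianInt → ℝ}

/-- the local factor -/
noncomputable def af (f : GaussianInt → ℝ) (p : P1) : ℝ :=
  (nm (p : GaussianInt) - 1) / (nm (p : GaussianInt) - f p)

theorem af_pos (hf : IsBCM f) (p : P1) : 0 < af f p := by
  have h1 := two_le_nm_of_prime (P1_prime p)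
  have h2 := hf.le_one (P1_ne_zero p)
  rw [af]
  apply div_pos <;> linarith

theorem af_le_one (hf : IsBCM f) (p : P1) : af f p ≤ 1 := by
  have h1 := two_le_nm_of_prime (P1_prime p)
  have h2 := hf.le_one (P1_ne_zero p)
  rw [af, div_le_one (by linarith)]
  linarith

theorem PP_tendsto (hf : IsBCM f) :
    Tendsto (fun s : Finset P1 => ∏ p ∈ s, af f p) atTop (𝓝 (PP f)) := by
  classical
  have hanti : Antitone (fun s : Finset P1 => ∏ p ∈ s, af f p) := by
    intro s t hst
    show ∏ p ∈ t, af f p ≤ ∏ p ∈ s, af f p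
    rw [← Finset.prod_sdiff hst]
    have h1 : ∏ p ∈ t \ s, af f p ≤ 1 :=
      Finset.prod_le_one (fun p _ => (af_pos hf p).le) (fun p _ => af_le_one hf p)
    have h2 : 0 ≤ ∏ p ∈ s, af f p := Finset.prod_nonneg (fun p _ => (af_pos hf p).le)
    nlinarith
  have hbdd : BddBelow (Set.range (fun s : Finset P1 => ∏ p ∈ s, af f p)) := by
    refine ⟨0, ?_⟩
    rintro _ ⟨s, rfl⟩
    exact Finset.prod_nonneg (fun p _ => (af_pos hf p).le)
  have h := tendsto_atTop_ciInf hanti hbdd
  have hP : HasProd (af f) (⨅ s : Finset P1, ∏ p ∈ s, af f p) := h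
  have : PP f = ⨅ s : Finset P1, ∏ p ∈ s, af f p := hP.tprod_eq
  rw [this]
  exact h

theorem PP_nonneg (hf : IsBCM f) : 0 ≤ PP f :=
  ge_of_tendsto' (PP_tendsto hf) (fun _ => Finset.prod_nonneg (fun p _ => (af_pos hf p).le))

theorem PP_le_one (hf : IsBCM f) : PP f ≤ 1 :=
  le_of_tendsto' (PP_tendsto hf) (fun _ => Finset.prod_le_one (fun p _ => (af_pos hf p).le)
    (fun p _ => af_le_one hf p))

/-- if the sum diverges then the product is `0`. -/
theorem summable_of_PP (hf : IsBCM f) (h : PP f ≠ 0) :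
    Summable (fun p : P1 => (1 - f p) / nm (p : GaussianInt)) := by
  have hpos : 0 < PP f := lt_of_le_of_ne (PP_nonneg hf) (Ne.symm h)
  have hge : ∀ s : Finset P1, PP f ≤ ∏ p ∈ s, af f p := by
    intro s
    classical
    apply le_of_tendsto (PP_tendsto hf)
    filter_upwards [eventually_ge_atTop s] with t hst
    rw [← Finset.prod_sdiff hst]
    have h1 : ∏ p ∈ t \ s, af f p ≤ 1 :=
      Finset.prod_le_one (fun p _ => (af_pos hf p).le) (fun p _ => af_le_one hf p)
    have h2 : 0 ≤ ∏ p ∈ s, af f p := Finset.prod_nonneg (fun p _ => (af_pos hf p).le)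
    nlinarith
  have hnn : ∀ p : P1, 0 ≤ (1 - f p) / nm (p : GaussianInt) := by
    intro p
    have h1 := two_le_nm_of_prime (P1_prime p)
    have h2 := hf.le_one (P1_ne_zero p)
    apply div_nonneg <;> linarith
  apply summable_of_sum_le (c := 2 * (- Real.log (PP f))) hnn
  intro s
  have h1 : ∏ p ∈ s, af f p ≤ Real.exp (- ∑ p ∈ s, (1 - f p) / nm (p : GaussianInt) / 2) := by
    rw [← Finset.sum_neg_distrib, Real.exp_sum]
    apply Finset.prod_le_prod (fun p _ => (af_pos hf p).le)
    intro p _
    have h1 := two_le_nm_of_prime (P1_prime p)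
    have h2 := hf.le_one (P1_ne_zero p)
    have h3 := (abs_le.1 (hf.abs_le_one (P1_ne_zero p))).1
    have h4 : af f p ≤ 1 - (1 - f p) / nm (p : GaussianInt) / 2 := by
      rw [af, div_le_iff₀ (by linarith)]
      have h5 : (1 - (1 - f p) / nm (p : GaussianInt) / 2) * (nm (p : GaussianInt) - f p)
          = (nm (p : GaussianInt) - 1) + (1 - f p) *
            ((nm (p : GaussianInt) + f p) / (2 * nm (p : GaussianInt))) := by
        field_simp
        ring
      rw [h5]
      have : 0 ≤ (1 - f p) * ((nm (p : GaussianInt) + f p) / (2 * nm (p : GaussianInt))) := by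
        apply mul_nonneg (by linarith)
        apply div_nonneg <;> linarith
      linarith
    refine h4.trans ?_
    have := Real.add_one_le_exp (-((1 - f p) / nm (p : GaussianInt) / 2))
    linarith
  have h2 : PP f ≤ Real.exp (- ∑ p ∈ s, (1 - f p) / nm (p : GaussianInt) / 2) := (hge s).trans h1
  have h3 : Real.log (PP f) ≤ - ∑ p ∈ s, (1 - f p) / nm (p : GaussianInt) / 2 := by
    rw [← Real.log_exp (- ∑ p ∈ s, (1 - f p) / nm (p : GaussianInt) / 2)]
    exact Real.log_le_log hpos h2
  rw [← Finset.sum_div] at h3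
  linarith

/-- **The mean value**, when the sum converges. -/
theorem hasMean_of_summable (hf : IsBCM f)
    (hs : Summable (fun p : P1 => (1 - f p) / nm (p : GaussianInt))) : HasMean f (PP f) := by
  classical
  apply hasMean_of_approx
  intro ε hε
  have hnn : ∀ p : P1, 0 ≤ (1 - f p) / nm (p : GaussianInt) := by
    intro p
    have h1 := two_le_nm_of_prime (P1_prime p)
    have h2 := hf.le_one (P1_ne_zero p)
    apply div_nonneg <;> linarith
  have hw : ∑' p : P1, ENNReal.ofReal ((1 - f p) / nm (p : GaussianInt)) ≠ ∞ := by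
    rw [← ENNReal.ofReal_tsum_of_nonneg hnn hs]
    exact ENNReal.ofReal_ne_top
  obtain ⟨T, hT⟩ := exists_tail hw (τ := ε / 18) (by positivity)
  have h1 := (Metric.tendsto_nhds.1 (PP_tendsto hf)) ε hε
  obtain ⟨T2, hT2⟩ := eventually_atTop.1 h1
  refine ⟨Fm f (T ∪ T2), _, hasMean_Fm hf (T ∪ T2), ?_, ?_⟩
  · have := hT2 (T ∪ T2) Finset.subset_union_right
    rw [Real.dist_eq] at this
    exact this.le
  · intro r
    have h2 : ∑' p : P1, wT f (T ∪ T2) p * ENNReal.ofReal (1 / nm (p : GaussianInt))
        ≤ ENNReal.ofReal (ε / 18) := by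
      refine le_trans (le_of_eq ?_) (hT (T ∪ T2) Finset.subset_union_left)
      congr 1
      ext p
      rw [wT]
      split_ifs with h
      · rw [zero_mul]
      · have h2 := hf.le_one (P1_ne_zero p)
        rw [← ENNReal.ofReal_mul (by linarith)]
        congr 1
        ring
    have h3 := Fm_sum_le hf (T ∪ T2) r (ε / 18) (by positivity) h2
    calc SS (fun n => |f n - Fm f (T ∪ T2) n|) r ≤ 18 * (ε / 18) * r ^ 2 := h3
      _ = ε * r ^ 2 := by ring

end

end Pool.Agent.GaussPret
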