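import Pool.Agent.Hhelper49.GaussPret.Char

set_option autoImplicit false

open Filter Topology MeasureTheory
open scoped ENNReal

namespace Pool.Agent.GaussPret

/-! ### Averages along dilated Folner sequences -/

theorem avg_abs_le {A : Finset GaussianInt} {F : GaussianInt → ℝ} {B : ℝ} (hB : 0 ≤ B)
    (h : ∀ n ∈ A, |F n| ≤ B) : |avg A F| ≤ B := by
  rw [avg, abs_div, abs_of_nonneg (Nat.cast_nonneg _ : (0 : ℝ) ≤ (A.card : ℝ))]
  rcases Finset.eq_empty_or_nonempty A with rfl | hA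
  · simpa using hB
  · have hc : (0 : ℝ) < A.card := by exact_mod_cast hA.card_pos
    rw [div_le_iff₀ hc]
    calc |∑ n ∈ A, F n| ≤ ∑ n ∈ A, |F n| := Finset.abs_sum_le_sum_abs _ _
      _ ≤ ∑ n ∈ A, B := Finset.sum_le_sum h
      _ = B * A.card := by rw [Finset.sum_const, nsmul_eq_mul, mul_comm]

theorem sum_erase_bound [DecidableEq GaussianInt] (A : Finset GaussianInt) (F : GaussianInt → ℝ) :
    ∃ e : ℝ, (e = 0 ∨ e = 1) ∧ ∑ n ∈ A, F n = ∑ n ∈ A.erase 0, F n + e * F 0 := by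
  by_cases h : (0 : GaussianInt) ∈ A
  · exact ⟨1, Or.inr rfl, by rw [one_mul, Finset.sum_erase_add _ _ h]⟩
  · exact ⟨0, Or.inl rfl, by rw [zero_mul, add_zero, Finset.erase_eq_of_notMem h]⟩

theorem sum_close (A A' : Finset GaussianInt) (F : GaussianInt → ℝ)
    (h : ∀ n : GaussianInt, n ≠ 0 → (n ∈ A ↔ n ∈ A')) :
    |∑ n ∈ A, F n - ∑ n ∈ A', F n| ≤ |F 0| := by
  classical
  have he : A.erase 0 = A'.erase 0 := by
    ext n
    rw [Finset.mem_erase, Finset.mem_erase]
    constructor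
    · rintro ⟨h1, h2⟩; exact ⟨h1, (h n h1).1 h2⟩
    · rintro ⟨h1, h2⟩; exact ⟨h1, (h n h1).2 h2⟩
  obtain ⟨e, he1, he2⟩ := sum_erase_bound A F
  obtain ⟨e', he1', he2'⟩ := sum_erase_bound A' F
  rw [he2, he2', he]
  have : ∑ n ∈ A'.erase 0, F n + e * F 0 - (∑ n ∈ A'.erase 0, F n + e' * F 0)
      = (e - e') * F 0 := by ring
  rw [this, abs_mul]
  have h2 : |e - e'| ≤ 1 := by
    rcases he1 with rfl | rfl <;> rcases he1' with rfl | rfl <;> norm_num
  nlinarith [abs_nonneg (F 0)]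

theorem sum_shift {U : Set ℂ} (hU : Bornology.IsBounded U) (κ : ℝ) (g : GaussianInt → ℝ)
    (n : GaussianInt) :
    ∑ h ∈ pts hU κ 0, g (n + h) = ∑ j ∈ pts hU κ (GaussianInt.toComplex n), g j := by
  apply Finset.sum_bij (fun h _ => n + h)
  · intro h hh
    rw [mem_pts] at hh ⊢
    obtain ⟨u, hu, hh⟩ := hh
    exact ⟨u, hu, by rw [map_add, hh]; ring⟩
  · intro a _ b _ hab
    exact add_left_cancel hab
  · intro j hj
    rw [mem_pts] at hj
    obtain ⟨u, hu, hj⟩ := hj
    refine ⟨j - n, ?_, by ring⟩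
    rw [mem_pts]
    exact ⟨u, hu, by rw [map_sub, hj]; ring⟩
  · intro h _
    rfl

theorem Per.bdd {Q : ℕ} [NeZero Q] {g : GaussianInt → ℝ} (hg : Per Q g) :
    ∃ B : ℝ, 0 ≤ B ∧ ∀ n, |g n| ≤ B := by
  refine ⟨∑ x : ZMod Q × ZMod Q, |g (rep x)|, Finset.sum_nonneg (fun _ _ => abs_nonneg _),
    fun n => ?_⟩
  rw [hg.eq_rep n]
  exact Finset.single_le_sum (f := fun x : ZMod Q × ZMod Q => |g (rep x)|)
    (fun _ _ => abs_nonneg _) (Finset.mem_univ _)

theorem mper_abs_le {Q : ℕ} [NeZero Q] {g : GaussianInt → ℝ} {B : ℝ}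
    (hB : ∀ n, |g n| ≤ B) : |mper Q g| ≤ B := by
  have hQ : (0 : ℝ) < (Q : ℝ) ^ 2 := by
    have : (0 : ℝ) < Q := by exact_mod_cast NeZero.pos Q
    positivity
  rw [mper, abs_div, abs_of_pos hQ, div_le_iff₀ hQ]
  calc |∑ x : ZMod Q × ZMod Q, g (rep x)| ≤ ∑ x : ZMod Q × ZMod Q, |g (rep x)| :=
        Finset.abs_sum_le_sum_abs _ _
    _ ≤ ∑ x : ZMod Q × ZMod Q, B := Finset.sum_le_sum (fun x _ => hB _)
    _ = B * (Q : ℝ) ^ 2 := by
        rw [Finset.sum_const, nsmul_eq_mul, Finset.card_univ, Fintype.card_prod, ZMod.card]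
        push_cast
        ring

/-- the size of the sets -/
theorem card_lower {Φ : ℕ → Finset GaussianInt} {U : Set ℂ} {k : ℕ → ℝ}
    (hU : Bornology.IsBounded U) (hF : volume (frontier U) = 0) (hV : 0 < volume U)
    (hkt : Tendsto k atTop atTop)
    (hΦ : ∀ (N : ℕ) (n : GaussianInt), n ≠ 0 →
      (n ∈ Φ N ↔ ∃ u ∈ U, GaussianInt.toComplex n = (k N : ℂ) * u)) :
    ∀ᶠ N in atTop, k N ^ 2 * ((volume U).toReal / 2) ≤ ((Φ N).card : ℝ) := by
  have hVr : 0 < (volume U).toReal := ENNReal.toReal_pos hV.ne' hU.measure_lt_top.ne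
  obtain ⟨κ₀, hκ₀, h⟩ := card_pts_asymp hU hF ((volume U).toReal / 4) (by positivity)
  filter_upwards [hkt.eventually_ge_atTop κ₀, hkt.eventually_ge_atTop 1,
    hkt.eventually_ge_atTop (4 / (volume U).toReal)] with N h1 h2 h3
  have h4 := h (k N) h1 0
  have h5 := sum_close (Φ N) (pts hU (k N) 0) (fun _ => 1) (by
    intro n hn
    rw [hΦ N n hn, mem_pts]
    simp only [add_zero])
  simp only [Finset.sum_const, nsmul_eq_mul, mul_one, abs_one] at h5
  rw [abs_le] at h4 h5
  rw [div_le_iff₀ hVr] at h3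
  have h6 : 4 ≤ k N ^ 2 * (volume U).toReal := by nlinarith
  nlinarith

/-- **Uniform equidistribution of periodic functions.** -/
theorem avg_per {Φ : ℕ → Finset GaussianInt} {U : Set ℂ} {k : ℕ → ℝ}
    (hU : Bornology.IsBounded U) (hF : volume (frontier U) = 0) (hV : 0 < volume U)
    (hkt : Tendsto k atTop atTop)
    (hΦ : ∀ (N : ℕ) (n : GaussianInt), n ≠ 0 →
      (n ∈ Φ N ↔ ∃ u ∈ U, GaussianInt.toComplex n = (k N : ℂ) * u))
    (Q : ℕ) [NeZero Q] (g : GaussianInt → ℝ) (hg : Per Q g) (ε : ℝ) (hε : 0 < ε) :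
    ∀ᶠ N in atTop, ∀ n : GaussianInt, |avg (Φ N) (fun h => g (n + h)) - mper Q g| ≤ ε := by
  have hVr : 0 < (volume U).toReal := ENNReal.toReal_pos hV.ne' hU.measure_lt_top.ne
  obtain ⟨B, hB0, hB⟩ := hg.bdd
  have hmB : |mper Q g| ≤ B := mper_abs_le hB
  set V := (volume U).toReal with hVdef
  set δ : ℝ := ε * V / (8 * (B + 1)) with hδ
  have hδ0 : 0 < δ := by rw [hδ]; positivity
  obtain ⟨κ₁, hκ₁, h1⟩ := sum_per_asymp hU hF Q g hg δ hδ0
  obtain ⟨κ₂, hκ₂, h2⟩ := card_pts_asymp hU hF δ hδ0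
  filter_upwards [hkt.eventually_ge_atTop κ₁, hkt.eventually_ge_atTop κ₂,
    hkt.eventually_ge_atTop 1, hkt.eventually_ge_atTop ((B + 1) / δ),
    card_lower hU hF hV hkt hΦ] with N e1 e2 e3 e4 e5 n
  have hκ1 := h1 (k N) e1 (GaussianInt.toComplex n)
  have hκ2 := h2 (k N) e2 0
  have hclose : ∀ F : GaussianInt → ℝ,
      |∑ n ∈ Φ N, F n - ∑ n ∈ pts hU (k N) 0, F n| ≤ |F 0| := by
    intro F
    apply sum_close
    intro n hn
    rw [hΦ N n hn, mem_pts]
    simp only [add_zero]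
  have c1 := hclose (fun h => g (n + h))
  have c2 := hclose (fun _ => 1)
  simp only [Finset.sum_const, nsmul_eq_mul, mul_one, abs_one] at c2
  simp only [add_zero] at c1
  rw [sum_shift] at c1
  have hkpos : 0 < k N := by linarith
  have hk2 : 0 < k N ^ 2 := by positivity
  have hCpos : 0 < ((Φ N).card : ℝ) := lt_of_lt_of_le (by positivity) e5
  have hBδ : B + 1 ≤ δ * k N ^ 2 := by
    rw [div_le_iff₀ hδ0] at e4
    nlinarith [mul_le_mul_of_nonneg_left e3 (by positivity : 0 ≤ δ * k N)]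
  set S := ∑ h ∈ Φ N, g (n + h) with hS
  set C := ((Φ N).card : ℝ) with hC
  have d1 : |S - k N ^ 2 * V * mper Q g| ≤ δ * k N ^ 2 + B := by
    have : S - k N ^ 2 * V * mper Q g
        = (S - ∑ j ∈ pts hU (k N) (GaussianInt.toComplex n), g j)
          + (∑ j ∈ pts hU (k N) (GaussianInt.toComplex n), g j - k N ^ 2 * V * mper Q g) := by
      ring
    rw [this]
    refine (abs_add_le _ _).trans ?_
    have := c1.trans (hB n)
    linarith
  have d2 : |C - k N ^ 2 * V| ≤ δ * k N ^ 2 + 1 := by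
    have : C - k N ^ 2 * V
        = (C - ((pts hU (k N) 0).card : ℝ))
          + (((pts hU (k N) 0).card : ℝ) - k N ^ 2 * V) := by
      ring
    rw [this]
    refine (abs_add_le _ _).trans ?_
    linarith
  have d3 : |S - mper Q g * C| ≤ 3 * (B + 1) * (δ * k N ^ 2) := by
    have : S - mper Q g * C = (S - k N ^ 2 * V * mper Q g) - mper Q g * (C - k N ^ 2 * V) := by
      ring
    rw [this]
    have d4 : |mper Q g * (C - k N ^ 2 * V)| ≤ B * (δ * k N ^ 2 + 1) := by
      rw [abs_mul]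
      exact mul_le_mul hmB d2 (abs_nonneg _) hB0
    have d5 : 0 ≤ B * (δ * k N ^ 2) := by positivity
    calc |(S - k N ^ 2 * V * mper Q g) - mper Q g * (C - k N ^ 2 * V)|
        ≤ |S - k N ^ 2 * V * mper Q g| + |mper Q g * (C - k N ^ 2 * V)| := abs_sub _ _
      _ ≤ (δ * k N ^ 2 + B) + B * (δ * k N ^ 2 + 1) := add_le_add d1 d4
      _ ≤ 3 * (B + 1) * (δ * k N ^ 2) := by nlinarith
  have d6 : avg (Φ N) (fun h => g (n + h)) - mper Q g = (S - mper Q g * C) / C := by
    rw [avg, ← hS, ← hC]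
    field_simp
  rw [d6, abs_div, abs_of_pos hCpos, div_le_iff₀ hCpos]
  refine d3.trans ?_
  have d7 : 3 * (B + 1) * (δ * k N ^ 2) = 3 / 8 * ε * V * k N ^ 2 := by
    rw [hδ]; field_simp
  rw [d7]
  have d8 : ε * (k N ^ 2 * (V / 2)) ≤ ε * C := mul_le_mul_of_nonneg_left e5 hε.le
  have d9 : 0 ≤ ε * V * k N ^ 2 := by positivity
  nlinarith

/-! ### Comparison -/

/-- comparison of `f` and `g` on one window -/
theorem win_cmp {f g : GaussianInt → ℝ} {P : ℝ} (hf : ∀ n : GaussianInt, n ≠ 0 → |f n| ≤ 1)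
    (hg : ∀ n : GaussianInt, |g n| ≤ 1) (A : Finset GaussianInt) (n : GaussianInt) :
    abs (abs (avg (win A n) f - P) - abs (avg A (fun h => g (n + h)) - P)) ≤
      if -n ∈ A then 2 else (∑ h ∈ A, |f (n + h) - g (n + h)|) / (A.card : ℝ) := by
  classical
  refine (abs_abs_sub_abs_le _ _).trans ?_
  have e : avg (win A n) f - P - (avg A (fun h => g (n + h)) - P)
      = avg (win A n) f - avg A (fun h => g (n + h)) := by ring
  rw [e]
  split_ifs with h
  · have h1 : |avg (win A n) f| ≤ 1 := by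
      apply avg_abs_le zero_le_one
      intro j hj
      apply hf
      rw [win, Finset.mem_erase] at hj
      exact hj.1
    have h2 : |avg A (fun h => g (n + h))| ≤ 1 :=
      avg_abs_le zero_le_one (fun j _ => hg _)
    calc |avg (win A n) f - avg A (fun h => g (n + h))|
        ≤ |avg (win A n) f| + |avg A (fun h => g (n + h))| := abs_sub _ _
      _ ≤ 2 := by linarith
  · have h0 : (0 : GaussianInt) ∉ A.image (fun h => n + h) := by
      rw [Finset.mem_image]
      rintro ⟨a, ha, hna⟩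
      apply h
      have : a = -n := by linear_combination hna
      rw [← this]
      exact ha
    have h1 : avg (win A n) f = (∑ h ∈ A, f (n + h)) / (A.card : ℝ) := by
      rw [win, Finset.erase_eq_of_notMem h0, avg,
        Finset.sum_image (fun a _ b _ hab => add_left_cancel hab),
        Finset.card_image_of_injective _ (add_right_injective n)]
    rw [h1, avg, ← sub_div, ← Finset.sum_sub_distrib, abs_div,
      abs_of_nonneg (Nat.cast_nonneg _ : (0 : ℝ) ≤ (A.card : ℝ))]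
    apply div_le_div_of_nonneg_right _ (Nat.cast_nonneg _)
    exact Finset.abs_sum_le_sum_abs _ _

/-- comparison on average -/
theorem sum_cmp {f g : GaussianInt → ℝ} {P E : ℝ}
    (hf : ∀ n : GaussianInt, n ≠ 0 → |f n| ≤ 1)
    (hg : ∀ n : GaussianInt, |g n| ≤ 1) (A B : Finset GaussianInt)
    (RA RB : ℝ) (hfg : SS (fun n => |f n - g n|) (RB + RA) ≤ E) (hRA : ∀ n ∈ A, ‖GaussianInt.toComplex n‖ ≤ RA)
    (hRB : ∀ n ∈ B, ‖GaussianInt.toComplex n‖ ≤ RB) :
    abs (∑ n ∈ B, abs (avg (win A n) f - P) - ∑ n ∈ B, abs (avg A (fun h => g (n + h)) - P)) ≤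
      2 * (A.card : ℝ) + E := by
  classical
  rw [← Finset.sum_sub_distrib]
  refine (Finset.abs_sum_le_sum_abs _ _).trans ?_
  refine (Finset.sum_le_sum (fun n _ => win_cmp (P := P) hf hg A n)).trans ?_
  rw [Finset.sum_ite]
  apply add_le_add
  · rw [Finset.sum_const, nsmul_eq_mul, mul_comm]
    apply mul_le_mul_of_nonneg_left _ zero_le_two
    have : (B.filter (fun n => -n ∈ A)).card ≤ A.card := by
      apply Finset.card_le_card_of_injOn (fun n => -n)
      · intro n hn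
        have hn' : n ∈ B.filter (fun n => -n ∈ A) := hn
        rw [Finset.mem_filter] at hn'
        exact hn'.2
      · intro a _ b _ hab
        exact neg_injective hab
    exact_mod_cast this
  · rcases Finset.eq_empty_or_nonempty A with rfl | hA
    · simp only [Finset.sum_empty, zero_div, Finset.sum_const_zero]
      exact (Finset.sum_nonneg (fun _ _ => abs_nonneg _)).trans hfg
    · have hc : (0 : ℝ) < A.card := by exact_mod_cast hA.card_pos
      rw [← Finset.sum_div, div_le_iff₀ hc, Finset.sum_comm]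
      have h1 : ∀ h ∈ A, ∑ n ∈ B.filter (fun n => ¬ -n ∈ A), |f (n + h) - g (n + h)| ≤ E := by
        intro h hh
        refine le_trans ?_ hfg
        rw [SS]
        rw [← Finset.sum_image (s := B.filter (fun n => ¬ -n ∈ A)) (g := fun n => n + h)
          (f := fun j => |f j - g j|) (fun a _ b _ hab => add_right_cancel hab)]
        apply Finset.sum_le_sum_of_subset_of_nonneg
        · intro j hj
          rw [Finset.mem_image] at hj
          obtain ⟨n, hn, rfl⟩ := hj
          rw [Finset.mem_filter] at hn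
          rw [mem_ball]
          constructor
          · intro h0
            apply hn.2
            have : -n = h := by linear_combination -h0
            rw [this]; exact hh
          · rw [map_add]
            exact (norm_add_le _ _).trans (add_le_add (hRB n hn.1) (hRA h hh))
        · intro _ _ _
          exact abs_nonneg _
      refine (Finset.sum_le_sum h1).trans ?_
      rw [Finset.sum_const, nsmul_eq_mul, mul_comm]

/-- abstract convergence lemma -/
theorem conv_lemma (X : ℕ → ℕ → ℝ) (C : ℝ) (hC : 0 < C)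
    (h : ∀ ε : ℝ, 0 < ε → ∃ y : ℕ → ℝ, (∀ H, ∀ᶠ N in atTop, |X H N - y H| ≤ C * ε) ∧
      ∀ᶠ H in atTop, |y H| ≤ 2 * ε) :
    ∃ L : ℕ → ℝ, (∀ H, Tendsto (X H) atTop (𝓝 (L H))) ∧ Tendsto L atTop (𝓝 0) := by
  have h1 : ∀ H, ∃ l, Tendsto (X H) atTop (𝓝 l) := by
    intro H
    apply cauchySeq_tendsto_of_complete
    rw [Metric.cauchySeq_iff']
    intro ε hε
    obtain ⟨y, hy, -⟩ := h (ε / (4 * C)) (by positivity)
    obtain ⟨N₀, hN₀⟩ := eventually_atTop.1 (hy H)
    refine ⟨N₀, fun n hn => ?_⟩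
    have h1 := hN₀ n hn
    have h2 := hN₀ N₀ le_rfl
    have h3 : C * (ε / (4 * C)) = ε / 4 := by field_simp
    rw [h3] at h1 h2
    rw [Real.dist_eq]
    have : X H n - X H N₀ = (X H n - y H) - (X H N₀ - y H) := by ring
    rw [this]
    calc |(X H n - y H) - (X H N₀ - y H)| ≤ |X H n - y H| + |X H N₀ - y H| := abs_sub _ _
      _ < ε := by linarith
  choose L hL using h1
  refine ⟨L, hL, ?_⟩
  rw [Metric.tendsto_atTop]
  intro ε hε
  obtain ⟨y, hy, hy2⟩ := h (ε / (2 * (C + 2))) (by positivity)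
  obtain ⟨H₀, hH₀⟩ := eventually_atTop.1 hy2
  refine ⟨H₀, fun H hH => ?_⟩
  have h1 := hH₀ H hH
  have h2 : |L H - y H| ≤ C * (ε / (2 * (C + 2))) := by
    apply le_of_tendsto ((hL H).sub_const (y H)).abs (hy H)
  rw [Real.dist_eq, sub_zero]
  have h3 : L H = (L H - y H) + y H := by ring
  rw [h3]
  have h4 : C * (ε / (2 * (C + 2))) + 2 * (ε / (2 * (C + 2))) = ε / 2 := by
    field_simp
  calc |(L H - y H) + y H| ≤ |L H - y H| + |y H| := abs_add_le _ _
    _ < ε := by linarith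

/-- **The main theorem.** -/
theorem pret_main {f χ : GaussianInt → ℝ} {m : ℕ} (hf : IsBCM f) (hχ : IsRayChar m χ) (hm : 0 < m)
    (hs : Summable (fun p : P1 => (1 - f p * χ p) / nm (p : GaussianInt)))
    {Φ : ℕ → Finset GaussianInt} (hΦ : IsDilatedFolner Φ) :
    ∃ L : ℕ → ℝ,
      (∀ H, Tendsto (fun N => avg (Φ N) (fun n => |avg (win (Φ H) n) f - PP f|)) atTop
        (𝓝 (L H))) ∧ Tendsto L atTop (𝓝 0) := by
  obtain ⟨U, k, hU, hF, hV, hk, hkt, hΦ⟩ := hΦ
  obtain ⟨ρ, hρ0, hρ⟩ := hU.exists_pos_norm_le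
  have hVr : 0 < (volume U).toReal := ENNReal.toReal_pos hV.ne' hU.measure_lt_top.ne
  have hcard := card_lower hU hF hV hkt hΦ
  set V := (volume U).toReal with hVdef
  apply conv_lemma _ (1 + 2 * (1 + (ρ + 1) ^ 2) / V) (by positivity)
  intro ε hε
  obtain ⟨Q, hQ, g, hper, hg1, hfg, hmper⟩ := exists_per hf hχ hm hs ε hε
  refine ⟨fun H => mper Q (fun n => |avg (Φ H) (fun h => g (n + h)) - PP f|), ?_, ?_⟩
  · intro H
    have hGper : Per Q (fun n => |avg (Φ H) (fun h => g (n + h)) - PP f|) := by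
      intro a b
      have : (fun h => g (a + (Q : GaussianInt) * b + h)) = fun h => g (a + h) := by
        funext h
        have e : a + (Q : GaussianInt) * b + h = (a + h) + (Q : GaussianInt) * b := by ring
        rw [e]
        exact hper _ _
      show |avg (Φ H) (fun h => g (a + (Q : GaussianInt) * b + h)) - PP f| = _
      rw [this]
    have havg := avg_per hU hF hV hkt hΦ Q _ hGper ε hε
    obtain ⟨RA, hRA0, hRA⟩ : ∃ RA : ℝ, 0 ≤ RA ∧ ∀ n ∈ Φ H, ‖GaussianInt.toComplex n‖ ≤ RA := by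
      obtain ⟨R, hR⟩ := ((Φ H).finite_toSet.image (fun n => ‖GaussianInt.toComplex n‖)).bddAbove
      exact ⟨max R 0, le_max_right _ _, fun n hn => (hR ⟨n, hn, rfl⟩).trans (le_max_left _ _)⟩
    filter_upwards [havg, hcard, hkt.eventually_ge_atTop 1, hkt.eventually_ge_atTop RA,
      hkt.eventually_ge_atTop (2 * ((Φ H).card : ℝ) / ε)] with N h1 h2 h3 h4 h5
    have h1' := h1 0
    simp only [zero_add] at h1'
    have hkpos : 0 < k N := by linarith
    have hk2 : 0 < k N ^ 2 := by positivity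
    have hCpos : 0 < ((Φ N).card : ℝ) := lt_of_lt_of_le (by positivity) h2
    have hRB : ∀ n ∈ Φ N, ‖GaussianInt.toComplex n‖ ≤ ρ * k N := by
      intro n hn
      by_cases h0 : n = 0
      · rw [h0, map_zero, norm_zero]; positivity
      · obtain ⟨u, hu, hnu⟩ := (hΦ N n h0).1 hn
        rw [hnu, norm_mul, Complex.norm_real, Real.norm_eq_abs, abs_of_pos hkpos, mul_comm]
        exact mul_le_mul_of_nonneg_right (hρ u hu) hkpos.le
    have hcmp := sum_cmp (P := PP f) (fun n hn => hf.abs_le_one hn) hg1 (Φ H) (Φ N) RA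
      (ρ * k N) (hfg _) hRA hRB
    set S1 := ∑ n ∈ Φ N, |avg (win (Φ H) n) f - PP f| with hS1
    set S2 := ∑ n ∈ Φ N, |avg (Φ H) (fun h => g (n + h)) - PP f| with hS2
    have h6 : |avg (Φ N) (fun n => |avg (win (Φ H) n) f - PP f|)
        - avg (Φ N) (fun n => |avg (Φ H) (fun h => g (n + h)) - PP f|)|
        ≤ 2 * (1 + (ρ + 1) ^ 2) / V * ε := by
      rw [avg, avg, ← hS1, ← hS2, ← sub_div, abs_div, abs_of_pos hCpos, div_le_iff₀ hCpos]
      refine hcmp.trans ?_
      have h7 : 2 * ((Φ H).card : ℝ) ≤ ε * k N ^ 2 := by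
        rw [div_le_iff₀ hε] at h5
        nlinarith [mul_le_mul_of_nonneg_left h3 (by positivity : 0 ≤ ε * k N)]
      have h8 : ε * (ρ * k N + RA) ^ 2 ≤ ε * ((ρ + 1) ^ 2 * k N ^ 2) := by
        apply mul_le_mul_of_nonneg_left _ hε.le
        rw [← mul_pow]
        apply pow_le_pow_left₀ (by positivity)
        linarith
      have h10 : 2 * (1 + (ρ + 1) ^ 2) / V * ε * (k N ^ 2 * (V / 2)) ≤
          2 * (1 + (ρ + 1) ^ 2) / V * ε * ((Φ N).card : ℝ) := by
        apply mul_le_mul_of_nonneg_left h2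
        positivity
      have h11 : 2 * (1 + (ρ + 1) ^ 2) / V * ε * (k N ^ 2 * (V / 2))
          = ε * k N ^ 2 + ε * ((ρ + 1) ^ 2 * k N ^ 2) := by
        field_simp
      linarith
    have h12 : avg (Φ N) (fun n => |avg (win (Φ H) n) f - PP f|)
        - mper Q (fun n => |avg (Φ H) (fun h => g (n + h)) - PP f|)
        = (avg (Φ N) (fun n => |avg (win (Φ H) n) f - PP f|)
        - avg (Φ N) (fun n => |avg (Φ H) (fun h => g (n + h)) - PP f|))
        + (avg (Φ N) (fun n => |avg (Φ H) (fun h => g (n + h)) - PP f|)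
          - mper Q (fun n => |avg (Φ H) (fun h => g (n + h)) - PP f|)) := by ring
    rw [h12]
    refine (abs_add_le _ _).trans ?_
    calc _ ≤ 2 * (1 + (ρ + 1) ^ 2) / V * ε + ε := add_le_add h6 h1'
      _ = (1 + 2 * (1 + (ρ + 1) ^ 2) / V) * ε := by ring
  · have h1 := avg_per hU hF hV hkt hΦ Q g hper ε hε
    filter_upwards [h1] with H h2
    apply mper_abs_le
    intro n
    rw [abs_abs]
    have : avg (Φ H) (fun h => g (n + h)) - PP f
        = (avg (Φ H) (fun h => g (n + h)) - mper Q g) + (mper Q g - PP f) := by ring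
    rw [this]
    refine (abs_add_le _ _).trans ?_
    linarith [h2 n]

end Pool.Agent.GaussPret
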