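import Pool.Agent.Hhelper49.GaussPret.Equi

set_option autoImplicit false

open Filter Topology MeasureTheory
open scoped ENNReal

namespace Pool.Agent.GaussPret

/-! ### Periodic functions -/

/-- `g` is periodic modulo `Q`. -/
def Per (Q : ℕ) (g : GaussianInt → ℝ) : Prop :=
  ∀ a b : GaussianInt, g (a + (Q : GaussianInt) * b) = g a

/-- representatives of the residue classes. -/
def rep {Q : ℕ} (x : ZMod Q × ZMod Q) : GaussianInt := ⟨(x.1.val : ℤ), (x.2.val : ℤ)⟩

/-- residue classes -/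
def res (Q : ℕ) (n : GaussianInt) : ZMod Q × ZMod Q := ((n.re : ZMod Q), (n.im : ZMod Q))

/-- the mean of a periodic function -/
noncomputable def mper (Q : ℕ) [NeZero Q] (g : GaussianInt → ℝ) : ℝ :=
  (∑ x : ZMod Q × ZMod Q, g (rep x)) / (Q : ℝ) ^ 2

theorem eq_rep_add {Q : ℕ} [NeZero Q] (n : GaussianInt) :
    n = rep (res Q n) + (Q : GaussianInt) * ⟨n.re / Q, n.im / Q⟩ := by
  have h1 := Int.emod_add_mul_ediv n.re Q
  have h2 := Int.emod_add_mul_ediv n.im Q
  apply Zsqrtd.ext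
  · simp only [rep, res, Zsqrtd.re_add, Zsqrtd.re_mul, Zsqrtd.re_natCast, Zsqrtd.im_natCast,
      ZMod.val_intCast]
    linarith
  · simp only [rep, res, Zsqrtd.im_add, Zsqrtd.im_mul, Zsqrtd.re_natCast, Zsqrtd.im_natCast,
      ZMod.val_intCast]
    linarith

theorem res_rep_add {Q : ℕ} [NeZero Q] (x : ZMod Q × ZMod Q) (b : GaussianInt) :
    res Q (rep x + (Q : GaussianInt) * b) = x := by
  obtain ⟨x1, x2⟩ := x
  simp only [res, rep, Zsqrtd.re_add, Zsqrtd.im_add, Zsqrtd.re_mul, Zsqrtd.im_mul,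
    Zsqrtd.re_natCast, Zsqrtd.im_natCast]
  push_cast
  simp

theorem Per.eq_rep {Q : ℕ} [NeZero Q] {g : GaussianInt → ℝ} (hg : Per Q g) (n : GaussianInt) :
    g n = g (rep (res Q n)) := by
  conv_lhs => rw [eq_rep_add (Q := Q) n]
  exact hg _ _

theorem card_fiber {U : Set ℂ} (hU : Bornology.IsBounded U) (Q : ℕ) [NeZero Q] (κ : ℝ) (s : ℂ)
    (x : ZMod Q × ZMod Q) :
    ((pts hU κ s).filter (fun h => res Q h = x)).card =
      (pts hU (κ / Q) ((s - GaussianInt.toComplex (rep x)) / Q)).card := by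
  have hQ : (Q : ℂ) ≠ 0 := by exact_mod_cast NeZero.ne Q
  symm
  apply Finset.card_bij (fun b _ => rep x + (Q : GaussianInt) * b)
  · intro b hb
    rw [mem_pts] at hb
    obtain ⟨u, hu, hb⟩ := hb
    rw [Finset.mem_filter, mem_pts]
    refine ⟨⟨u, hu, ?_⟩, res_rep_add x b⟩
    rw [map_add, map_mul, hb, map_natCast]
    push_cast
    field_simp
    ring
  · intro a _ b _ hab
    have hQ' : (Q : GaussianInt) ≠ 0 := by exact_mod_cast NeZero.ne Q
    exact mul_left_cancel₀ hQ' (add_left_cancel hab)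
  · intro h hh
    rw [Finset.mem_filter, mem_pts] at hh
    obtain ⟨⟨u, hu, hh1⟩, hh2⟩ := hh
    have h1 := eq_rep_add (Q := Q) h
    rw [hh2] at h1
    refine ⟨_, ?_, h1.symm⟩
    rw [mem_pts]
    refine ⟨u, hu, ?_⟩
    have h2 : GaussianInt.toComplex h = GaussianInt.toComplex (rep x) +
        (Q : ℂ) * GaussianInt.toComplex ⟨h.re / Q, h.im / Q⟩ := by
      conv_lhs => rw [h1]
      rw [map_add, map_mul, map_natCast]
    rw [hh1] at h2
    push_cast
    field_simp
    linear_combination -h2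

/-- **Sums of periodic functions over the Gaussian integers in `κ U + s`**, uniformly in `s`. -/
theorem sum_per_asymp {U : Set ℂ} (hU : Bornology.IsBounded U) (hF : volume (frontier U) = 0)
    (Q : ℕ) [NeZero Q] (g : GaussianInt → ℝ) (hg : Per Q g) (ε : ℝ) (hε : 0 < ε) :
    ∃ κ₀ : ℝ, 0 < κ₀ ∧ ∀ κ : ℝ, κ₀ ≤ κ → ∀ s : ℂ,
      |∑ h ∈ pts hU κ s, g h - κ ^ 2 * (volume U).toReal * mper Q g| ≤ ε * κ ^ 2 := by
  classical
  set S : ℝ := ∑ x : ZMod Q × ZMod Q, |g (rep x)| with hS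
  have hS0 : 0 ≤ S := Finset.sum_nonneg (fun _ _ => abs_nonneg _)
  have hQ0 : (0 : ℝ) < Q := by exact_mod_cast NeZero.pos Q
  have hQ1 : (1 : ℝ) ≤ Q := by exact_mod_cast NeZero.pos Q
  obtain ⟨κ₀, hκ₀, h⟩ := card_pts_asymp hU hF (ε / (S + 1)) (by positivity)
  refine ⟨κ₀ * Q, by positivity, fun κ hκ s => ?_⟩
  have h1 : ∑ h ∈ pts hU κ s, g h =
      ∑ x : ZMod Q × ZMod Q, g (rep x) *
        ((pts hU (κ / Q) ((s - GaussianInt.toComplex (rep x)) / Q)).card : ℝ) := by
    rw [← Finset.sum_fiberwise (pts hU κ s) (fun h => res Q h) g]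
    apply Finset.sum_congr rfl
    intro x _
    rw [← card_fiber, mul_comm, ← nsmul_eq_mul, ← Finset.sum_const]
    apply Finset.sum_congr rfl
    intro n hn
    rw [Finset.mem_filter] at hn
    rw [hg.eq_rep n, hn.2]
  have h2 : κ ^ 2 * (volume U).toReal * mper Q g =
      ∑ x : ZMod Q × ZMod Q, g (rep x) * ((κ / Q) ^ 2 * (volume U).toReal) := by
    rw [mper, ← Finset.sum_mul]
    field_simp
  rw [h1, h2, ← Finset.sum_sub_distrib]
  calc |∑ x : ZMod Q × ZMod Q, (g (rep x) *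
        ((pts hU (κ / Q) ((s - GaussianInt.toComplex (rep x)) / Q)).card : ℝ)
          - g (rep x) * ((κ / Q) ^ 2 * (volume U).toReal))|
      ≤ ∑ x : ZMod Q × ZMod Q, |g (rep x) *
        ((pts hU (κ / Q) ((s - GaussianInt.toComplex (rep x)) / Q)).card : ℝ)
          - g (rep x) * ((κ / Q) ^ 2 * (volume U).toReal)| := Finset.abs_sum_le_sum_abs _ _
    _ ≤ ∑ x : ZMod Q × ZMod Q, |g (rep x)| * (ε / (S + 1) * (κ / Q) ^ 2) := by
        apply Finset.sum_le_sum
        intro x _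
        rw [← mul_sub, abs_mul]
        gcongr
        exact h (κ / Q) (by rw [le_div_iff₀ hQ0]; exact hκ) _
    _ = S * (ε / (S + 1) * (κ / Q) ^ 2) := by rw [← Finset.sum_mul]
    _ ≤ ε * κ ^ 2 := by
        have h3 : (κ / Q) ^ 2 ≤ κ ^ 2 := by
          rw [div_pow]
          exact div_le_self (by positivity) (by nlinarith)
        have h4 : S * (ε / (S + 1)) ≤ ε := by
          rw [mul_div_assoc', div_le_iff₀ (by positivity)]
          nlinarith
        calc S * (ε / (S + 1) * (κ / Q) ^ 2) = (S * (ε / (S + 1))) * (κ / Q) ^ 2 := by ring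
          _ ≤ ε * κ ^ 2 := by gcongr

end Pool.Agent.GaussPret
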