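import Pool.Agent.Hhelper49.GaussPret.Approx
import Pool.Agent.Hhelper49.GaussPret.Per

set_option autoImplicit false

open Filter Topology MeasureTheory
open scoped ENNReal

namespace Pool.Agent.GaussPret

/-! ### Means over discs -/

/-- the area of the unit disc -/
noncomputable def cD : ℝ := (volume (Metric.closedBall (0 : ℂ) 1)).toReal

theorem cD_pos : 0 < cD := by
  apply ENNReal.toReal_pos
  · exact (Metric.measure_closedBall_pos volume _ one_pos).ne'
  · exact Metric.isBounded_closedBall.measure_lt_top.ne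

/-- the sum over the nonzero Gaussian integers in a disc -/
noncomputable def SS (F : GaussianInt → ℝ) (r : ℝ) : ℝ := ∑ n ∈ ball r, F n

/-- the mean over discs -/
def HasMean (F : GaussianInt → ℝ) (c : ℝ) : Prop :=
  Tendsto (fun r : ℝ => SS F r / r ^ 2) atTop (𝓝 (cD * c))

theorem frontier_disc : volume (frontier (Metric.closedBall (0 : ℂ) 1)) = 0 := by
  rw [frontier_closedBall (0 : ℂ) one_ne_zero]
  exact Measure.addHaar_sphere _ _ _

theorem ball_eq_pts (r : ℝ) (hr : 0 < r) :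
    ball r = (pts (Metric.isBounded_closedBall (x := (0 : ℂ)) (r := 1)) r 0).erase 0 := by
  ext n
  rw [mem_ball, Finset.mem_erase, mem_pts]
  have hrc : (r : ℂ) ≠ 0 := by exact_mod_cast hr.ne'
  constructor
  · rintro ⟨h1, h2⟩
    refine ⟨h1, GaussianInt.toComplex n / r, ?_, ?_⟩
    · rw [mem_closedBall_zero_iff, norm_div, Complex.norm_real, Real.norm_eq_abs, abs_of_pos hr,
        div_le_one hr]
      exact h2
    · rw [mul_div_cancel₀ _ hrc, add_zero]
  · rintro ⟨h1, u, hu, hn⟩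
    refine ⟨h1, ?_⟩
    rw [hn, add_zero, norm_mul, Complex.norm_real, Real.norm_eq_abs, abs_of_pos hr]
    rw [mem_closedBall_zero_iff] at hu
    nlinarith

theorem SS_eq_pts (F : GaussianInt → ℝ) (r : ℝ) (hr : 0 < r) :
    SS F r = ∑ n ∈ pts (Metric.isBounded_closedBall (x := (0 : ℂ)) (r := 1)) r 0, F n - F 0 := by
  rw [SS, ball_eq_pts r hr]
  have h0 : (0 : GaussianInt) ∈ pts (Metric.isBounded_closedBall (x := (0 : ℂ)) (r := 1)) r 0 := by
    rw [mem_pts]
    exact ⟨0, by simp, by simp⟩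
  rw [← Finset.sum_erase_add _ _ h0]
  ring

theorem hasMean_per (Q : ℕ) [NeZero Q] (g : GaussianInt → ℝ) (hg : Per Q g) :
    HasMean g (mper Q g) := by
  rw [HasMean, Metric.tendsto_atTop]
  intro ε hε
  obtain ⟨κ₀, hκ₀, h⟩ := sum_per_asymp (Metric.isBounded_closedBall (x := (0 : ℂ)) (r := 1))
    frontier_disc Q g hg (ε / 4) (by positivity)
  refine ⟨max κ₀ (max 1 (4 * |g 0| / ε)), fun r hr => ?_⟩
  have hr1 : κ₀ ≤ r := (le_max_left _ _).trans hr
  have hr2 : 1 ≤ r := ((le_max_left _ _).trans (le_max_right _ _)).trans hr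
  have hr3 : 4 * |g 0| / ε ≤ r := ((le_max_right _ _).trans (le_max_right _ _)).trans hr
  have hr0 : 0 < r := by linarith
  have h1 := h r hr1 0
  rw [Real.dist_eq, SS_eq_pts g r hr0]
  have hr4 : |g 0| ≤ ε / 4 * r ^ 2 := by
    rw [div_le_iff₀ hε] at hr3
    nlinarith [mul_le_mul_of_nonneg_left hr2 (by positivity : 0 ≤ ε * r)]
  have h2 : (∑ n ∈ pts (Metric.isBounded_closedBall (x := (0 : ℂ)) (r := 1)) r 0, g n - g 0) / r ^ 2
      - cD * mper Q g =
      ((∑ n ∈ pts (Metric.isBounded_closedBall (x := (0 : ℂ)) (r := 1)) r 0, g n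
        - r ^ 2 * cD * mper Q g) - g 0) / r ^ 2 := by
    field_simp
    ring
  rw [h2, abs_div, abs_of_pos (by positivity : (0 : ℝ) < r ^ 2), div_lt_iff₀ (by positivity)]
  calc |(∑ n ∈ pts (Metric.isBounded_closedBall (x := (0 : ℂ)) (r := 1)) r 0, g n
        - r ^ 2 * cD * mper Q g) - g 0|
      ≤ |(∑ n ∈ pts (Metric.isBounded_closedBall (x := (0 : ℂ)) (r := 1)) r 0, g n
        - r ^ 2 * cD * mper Q g)| + |g 0| := abs_sub _ _
    _ ≤ ε / 4 * r ^ 2 + ε / 4 * r ^ 2 := add_le_add h1 hr4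
    _ < ε * r ^ 2 := by nlinarith [mul_pos hε (by positivity : 0 < r ^ 2)]

theorem hasMean_one : HasMean (fun _ => 1) 1 := by
  have h := hasMean_per 1 (fun _ => (1 : ℝ)) (fun _ _ => rfl)
  have : mper 1 (fun _ => (1 : ℝ)) = 1 := by
    rw [mper]
    have : Fintype.card (ZMod 1 × ZMod 1) = 1 := by decide
    simp [this]
  rwa [this] at h

end Pool.Agent.GaussPret
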