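import Pool.Agent.Hhelper49.GaussPret.Basic

set_option autoImplicit false

open Filter Topology MeasureTheory

namespace Pool.Agent.GaussPret

/-! ### Units and representatives of the primes -/

theorem unit_cases {u : GaussianInt} (hu : IsUnit u) :
    u = 1 ∨ u = -1 ∨ u = ⟨0, 1⟩ ∨ u = ⟨0, -1⟩ := by
  have h : Zsqrtd.norm u = 1 := (Zsqrtd.norm_eq_one_iff' (by norm_num) u).2 hu
  rw [Zsqrtd.norm_def] at h
  have h' : u.re * u.re + u.im * u.im = 1 := by linarith
  have hre : u.re ≤ 1 := by nlinarith [mul_self_nonneg u.im]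
  have hre' : -1 ≤ u.re := by nlinarith [mul_self_nonneg u.im]
  have him : u.im ≤ 1 := by nlinarith [mul_self_nonneg u.re]
  have him' : -1 ≤ u.im := by nlinarith [mul_self_nonneg u.re]
  have key : ∀ a b : ℤ, u.re = a → u.im = b → u = ⟨a, b⟩ := by
    intro a b ha hb
    exact Zsqrtd.ext ha hb
  have h1 : u.re = -1 ∨ u.re = 0 ∨ u.re = 1 := by omega
  have h2 : u.im = -1 ∨ u.im = 0 ∨ u.im = 1 := by omega
  rcases h1 with h1 | h1 | h1 <;> rcases h2 with h2 | h2 | h2 <;>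
    rw [h1, h2] at h' <;> norm_num at h'
  · right; left; rw [key _ _ h1 h2]; rfl
  · right; right; right; exact key _ _ h1 h2
  · right; right; left; exact key _ _ h1 h2
  · left; rw [key _ _ h1 h2]; rfl

theorem exists_P1 {q : GaussianInt} (hq : Prime q) : ∃ p : P1, Associated (p : GaussianInt) q := by
  have hI : IsUnit (⟨0, 1⟩ : GaussianInt) := by
    rw [← Zsqrtd.norm_eq_one_iff' (by norm_num)]; rfl
  have hmI : IsUnit (⟨0, -1⟩ : GaussianInt) := by
    rw [← Zsqrtd.norm_eq_one_iff' (by norm_num)]; rfl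
  have key : ∀ u : GaussianInt, IsUnit u → 0 < (q * u).re → 0 ≤ (q * u).im →
      ∃ p : P1, Associated (p : GaussianInt) q := by
    intro u hu h1 h2
    have ha : Associated q (q * u) := (associated_mul_unit_right q u hu)
    exact ⟨⟨q * u, ha.prime hq, h1, h2⟩, ha.symm⟩
  have h0 : ¬ (q.re = 0 ∧ q.im = 0) := by
    rintro ⟨h1, h2⟩
    exact hq.ne_zero (Zsqrtd.ext h1 h2)
  by_cases h1 : 0 < q.re ∧ 0 ≤ q.im
  · exact key 1 isUnit_one (by simpa using h1.1) (by simpa using h1.2)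
  by_cases h2 : 0 < q.im ∧ q.re ≤ 0
  · refine key ⟨0, -1⟩ hmI ?_ ?_
    · simp only [Zsqrtd.re_mul]; nlinarith [h2.1]
    · simp only [Zsqrtd.im_mul]; nlinarith [h2.2]
  by_cases h3 : q.re < 0 ∧ q.im ≤ 0
  · refine key (-1) isUnit_one.neg ?_ ?_
    · simp only [mul_neg, mul_one, Zsqrtd.re_neg]; linarith [h3.1]
    · simp only [mul_neg, mul_one, Zsqrtd.im_neg]; linarith [h3.2]
  · refine key ⟨0, 1⟩ hI ?_ ?_
    · simp only [Zsqrtd.re_mul]
      have : q.im < 0 := by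
        by_contra h
        have : q.re ≤ 0 ∨ 0 < q.re := by omega
        omega
      nlinarith
    · simp only [Zsqrtd.im_mul]
      have : 0 ≤ q.re := by omega
      nlinarith

theorem P1_eq_of_dvd {p q : P1} (h : (p : GaussianInt) ∣ (q : GaussianInt)) : p = q := by
  obtain ⟨p, hp, hp1, hp2⟩ := p
  obtain ⟨q, hq, hq1, hq2⟩ := q
  simp only at h
  rw [Subtype.mk.injEq]
  obtain ⟨u, hu⟩ := (hp.dvd_prime_iff_associated hq).1 h
  have hu' := unit_cases u.isUnit
  rcases hu' with h' | h' | h' | h'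
  · rw [h', mul_one] at hu; exact hu
  · rw [h'] at hu
    exfalso
    have : q.re = -p.re := by rw [← hu]; simp
    omega
  · rw [h'] at hu
    exfalso
    have : q.re = -p.im := by rw [← hu]; simp [Zsqrtd.re_mul]
    omega
  · rw [h'] at hu
    exfalso
    have : q.im = -p.re := by rw [← hu]; simp [Zsqrtd.im_mul]
    omega

theorem P1_prime (p : P1) : Prime (p : GaussianInt) := p.2.1

theorem P1_ne_zero (p : P1) : (p : GaussianInt) ≠ 0 := p.2.1.ne_zero

/-! ### Bounded completely multiplicative functions -/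

/-- bounded multiplicative functions are bounded by `1`. -/
theorem abs_le_one_of_bdd {g : GaussianInt → ℝ}
    (hmul : ∀ m n : GaussianInt, m ≠ 0 → n ≠ 0 → g (m * n) = g m * g n)
    (hb : ∃ C : ℝ, ∀ n : GaussianInt, n ≠ 0 → |g n| ≤ C) (n : GaussianInt) (hn : n ≠ 0) :
    |g n| ≤ 1 := by
  obtain ⟨C, hC⟩ := hb
  by_contra h
  push Not at h
  have hp : ∀ k : ℕ, g (n ^ (k + 1)) = g n ^ (k + 1) := by
    intro k
    induction k with
    | zero => simp
    | succ k ih => rw [pow_succ, hmul _ _ (pow_ne_zero _ hn) hn, ih]; ring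
  obtain ⟨k, hk⟩ := pow_unbounded_of_one_lt C h
  have h1 := hC (n ^ (k + 1)) (pow_ne_zero _ hn)
  rw [hp k, abs_pow] at h1
  have h2 : |g n| ^ k ≤ |g n| ^ (k + 1) := pow_le_pow_right₀ h.le (Nat.le_succ k)
  linarith

section BCM

variable {f : GaussianInt → ℝ}

theorem IsBCM.abs_le_one (hf : IsBCM f) {n : GaussianInt} (hn : n ≠ 0) : |f n| ≤ 1 :=
  abs_le_one_of_bdd hf.mul hf.bdd n hn

theorem IsBCM.le_one (hf : IsBCM f) {n : GaussianInt} (hn : n ≠ 0) : f n ≤ 1 :=
  (abs_le.1 (hf.abs_le_one hn)).2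

theorem IsBCM.map_unit (hf : IsBCM f) {u : GaussianInt} (hu : IsUnit u) : f u = 1 := by
  have hI0 : (⟨0, 1⟩ : GaussianInt) ≠ 0 := by
    intro h; have := congrArg Zsqrtd.im h; simp at this
  have hm1 : f (-1) = 1 := by
    have h := hf.mul ⟨0, 1⟩ ⟨0, 1⟩ hI0 hI0
    rw [hf.map_I] at h
    have h2 : (⟨0, 1⟩ : GaussianInt) * ⟨0, 1⟩ = -1 := by ext <;> simp
    rw [h2] at h
    simpa using h
  rcases unit_cases hu with h | h | h | h
  · have h2 := hf.mul (-1) (-1) (by simp) (by simp)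
    rw [hm1] at h2
    rw [h]; simpa using h2
  · rw [h]; exact hm1
  · rw [h]; exact hf.map_I
  · have h2 := hf.mul (-1) ⟨0, 1⟩ (by simp) hI0
    rw [hm1, hf.map_I] at h2
    have h3 : (-1 : GaussianInt) * ⟨0, 1⟩ = ⟨0, -1⟩ := by ext <;> simp
    rw [h3] at h2
    rw [h]; simpa using h2

theorem IsBCM.map_assoc (hf : IsBCM f) {a b : GaussianInt} (h : Associated a b) (ha : a ≠ 0) :
    f a = f b := by
  obtain ⟨u, rfl⟩ := h
  rw [hf.mul a u ha u.isUnit.ne_zero, hf.map_unit u.isUnit, mul_one]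

end BCM

section Ray

variable {m : ℕ} {χ : GaussianInt → ℝ}

theorem IsRayChar.bdd (hχ : IsRayChar m χ) (hm : 0 < m) :
    ∃ C : ℝ, ∀ n : GaussianInt, |χ n| ≤ C := by
  have hm0 : (m : GaussianInt) ≠ 0 := by exact_mod_cast hm.ne'
  have hfin := finite_ball ‖GaussianInt.toComplex (m : GaussianInt)‖
  obtain ⟨C, hC⟩ := (hfin.image (fun n => |χ n|)).bddAbove
  refine ⟨C, fun n => ?_⟩
  have h1 : χ n = χ (n % (m : GaussianInt)) := by
    conv_lhs => rw [← EuclideanDomain.mod_add_div n (m : GaussianInt)]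
    exact hχ.per _ _
  rw [h1]
  apply hC
  refine ⟨n % (m : GaussianInt), ?_, rfl⟩
  have h2 := GaussianInt.norm_mod_lt n hm0
  have h3 : nm (n % (m : GaussianInt)) < nm (m : GaussianInt) := by
    rw [nm, nm]; exact_mod_cast h2
  rw [nm_eq, nm_eq] at h3
  show ‖GaussianInt.toComplex (n % (m : GaussianInt))‖ ≤ _
  exact (lt_of_pow_lt_pow_left₀ 2 (norm_nonneg _) h3).le

theorem IsRayChar.abs_le_one (hχ : IsRayChar m χ) (hm : 0 < m) (n : GaussianInt) : |χ n| ≤ 1 := by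
  by_cases hn : n = 0
  · subst hn
    have h := hχ.mul 0 0
    rw [mul_zero] at h
    have : χ 0 = 0 ∨ χ 0 = 1 := by
      have h2 : χ 0 * (χ 0 - 1) = 0 := by linarith
      rcases mul_eq_zero.1 h2 with h3 | h3
      · exact Or.inl h3
      · exact Or.inr (by linarith)
    rcases this with h | h <;> rw [h] <;> norm_num
  · obtain ⟨C, hC⟩ := hχ.bdd hm
    exact abs_le_one_of_bdd (fun a b _ _ => hχ.mul a b) ⟨C, fun n _ => hC n⟩ n hn

theorem IsRayChar.map_one (hχ : IsRayChar m χ) : χ 1 = 1 := by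
  have h2 : (⟨0, 1⟩ : GaussianInt) * ⟨0, 1⟩ = -1 := by ext <;> simp
  have h := hχ.mul ⟨0, 1⟩ ⟨0, 1⟩
  rw [h2, hχ.map_I] at h
  have h3 := hχ.mul (-1) (-1)
  rw [h] at h3
  simpa using h3

theorem IsRayChar.map_unit (hχ : IsRayChar m χ) {u : GaussianInt} (hu : IsUnit u) : χ u = 1 := by
  have h2 : (⟨0, 1⟩ : GaussianInt) * ⟨0, 1⟩ = -1 := by ext <;> simp
  have hm1 : χ (-1) = 1 := by
    have h := hχ.mul ⟨0, 1⟩ ⟨0, 1⟩
    rw [h2, hχ.map_I] at h
    simpa using h
  rcases unit_cases hu with h | h | h | h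
  · rw [h]; exact hχ.map_one
  · rw [h]; exact hm1
  · rw [h]; exact hχ.map_I
  · have h3 := hχ.mul (-1) ⟨0, 1⟩
    rw [hm1, hχ.map_I] at h3
    have h4 : (-1 : GaussianInt) * ⟨0, 1⟩ = ⟨0, -1⟩ := by ext <;> simp
    rw [h4] at h3
    rw [h]; simpa using h3

theorem IsRayChar.map_assoc (hχ : IsRayChar m χ) {a b : GaussianInt} (h : Associated a b) :
    χ a = χ b := by
  obtain ⟨u, rfl⟩ := h
  rw [hχ.mul, hχ.map_unit u.isUnit, mul_one]

theorem IsRayChar.sq_eq_one (hχ : IsRayChar m χ) (hm : 0 < m) {a : GaussianInt}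
    (ha : IsCoprime a (m : GaussianInt)) : χ a * χ a = 1 := by
  obtain ⟨b, c, hbc⟩ := ha
  have h1 : χ (b * a) = 1 := by
    have h : χ (b * a + (m : GaussianInt) * c) = χ (b * a) := hχ.per _ _
    rw [← h, mul_comm (m : GaussianInt) c, hbc]
    exact hχ.map_one
  rw [hχ.mul] at h1
  have h2 := hχ.abs_le_one hm a
  have h3 := hχ.abs_le_one hm b
  rw [abs_le] at h2 h3
  have h4 : |χ b| * |χ a| = 1 := by rw [← abs_mul, h1, abs_one]
  have h5 : |χ a| = 1 := by
    have := hχ.abs_le_one hm a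
    have := hχ.abs_le_one hm b
    nlinarith [abs_nonneg (χ a), abs_nonneg (χ b)]
  rw [← abs_mul_abs_self, h5, one_mul]

end Ray

end Pool.Agent.GaussPret
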