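import Pool.Agent.Hhelper49.GaussPret.Mean

set_option autoImplicit false

open Filter Topology MeasureTheory
open scoped ENNReal

namespace Pool.Agent.GaussPret

/-! ### The functional equation of the means -/

open scoped Classical in
theorem SS_dvd (p : GaussianInt) (hp : p ≠ 0) (F : GaussianInt → ℝ) (r : ℝ) :
    ∑ n ∈ (ball r).filter (fun n => p ∣ n), F n =
      SS (fun n => F (p * n)) (r / ‖GaussianInt.toComplex p‖) := by
  have hp1 : 0 < ‖GaussianInt.toComplex p‖ := by linarith [one_le_norm hp]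
  rw [SS]
  symm
  apply Finset.sum_bij (fun m _ => p * m)
  · intro m hm
    rw [mem_ball] at hm
    rw [Finset.mem_filter, mem_ball]
    refine ⟨⟨mul_ne_zero hp hm.1, ?_⟩, dvd_mul_right _ _⟩
    rw [map_mul, norm_mul, mul_comm]
    exact (le_div_iff₀ hp1).1 hm.2
  · intro a _ b _ hab
    exact mul_left_cancel₀ hp hab
  · intro n hn
    rw [Finset.mem_filter, mem_ball] at hn
    obtain ⟨⟨h0, h1⟩, m, rfl⟩ := hn
    refine ⟨m, ?_, rfl⟩
    rw [mem_ball]
    refine ⟨right_ne_zero_of_mul h0, ?_⟩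
    rw [map_mul, norm_mul, mul_comm] at h1
    exact (le_div_iff₀ hp1).2 h1
  · intro m _
    rfl

theorem SS_abs_le (F : GaussianInt → ℝ) (hF : ∀ n : GaussianInt, n ≠ 0 → |F n| ≤ 1) (r : ℝ) :
    |SS F r| ≤ 9 * r ^ 2 := by
  calc |SS F r| ≤ ∑ n ∈ ball r, |F n| := Finset.abs_sum_le_sum_abs _ _
    _ ≤ ∑ n ∈ ball r, (1 : ℝ) := by
        apply Finset.sum_le_sum
        intro n hn
        exact hF n (mem_ball.1 hn).1
    _ = ((ball r).card : ℝ) := by simp
    _ ≤ 9 * r ^ 2 := card_ball_le r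

theorem hasMean_step {h F : GaussianInt → ℝ} {c t : ℝ} {p : GaussianInt} (hp : Prime p)
    (hh : HasMean h c) (hF1 : ∀ n : GaussianInt, n ≠ 0 → |F n| ≤ 1) (ht : |t| ≤ 1)
    (hhp : ∀ n : GaussianInt, n ≠ 0 → h (p * n) = h n)
    (hFp : ∀ n : GaussianInt, n ≠ 0 → F (p * n) = t * F n)
    (hFh : ∀ n : GaussianInt, n ≠ 0 → ¬ p ∣ n → F n = h n) :
    HasMean F (c * ((nm p - 1) / (nm p - t))) := by
  classical
  set s : ℝ := ‖GaussianInt.toComplex p‖ with hs
  have hs1 : 1 ≤ s := one_le_norm hp.ne_zero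
  have hs0 : 0 < s := by linarith
  have hN2 : 2 ≤ nm p := two_le_nm_of_prime hp
  have hNs : nm p = s ^ 2 := nm_eq p
  have hkey : ∀ r : ℝ, SS F r = (SS h r - SS h (r / s)) + t * SS F (r / s) := by
    intro r
    have h1 : SS F r = ∑ n ∈ (ball r).filter (fun n => p ∣ n), F n
        + ∑ n ∈ (ball r).filter (fun n => ¬ p ∣ n), F n :=
      (Finset.sum_filter_add_sum_filter_not _ _ _).symm
    have h2 : SS h r = ∑ n ∈ (ball r).filter (fun n => p ∣ n), h n
        + ∑ n ∈ (ball r).filter (fun n => ¬ p ∣ n), h n :=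
      (Finset.sum_filter_add_sum_filter_not _ _ _).symm
    have h3 : ∑ n ∈ (ball r).filter (fun n => ¬ p ∣ n), F n
        = ∑ n ∈ (ball r).filter (fun n => ¬ p ∣ n), h n := by
      apply Finset.sum_congr rfl
      intro n hn
      rw [Finset.mem_filter, mem_ball] at hn
      exact hFh n hn.1.1 hn.2
    have h4 : SS (fun n => F (p * n)) (r / s) = t * SS F (r / s) := by
      rw [SS, SS, Finset.mul_sum]
      apply Finset.sum_congr rfl
      intro n hn
      exact hFp n (mem_ball.1 hn).1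
    have h5 : SS (fun n => h (p * n)) (r / s) = SS h (r / s) := by
      rw [SS, SS]
      apply Finset.sum_congr rfl
      intro n hn
      exact hhp n (mem_ball.1 hn).1
    rw [SS_dvd p hp.ne_zero F r, h4] at h1
    rw [SS_dvd p hp.ne_zero h r, h5] at h2
    rw [h1, h3]
    linarith
  set D : ℝ → ℝ := fun r => SS F r / r ^ 2 with hD
  set A : ℝ → ℝ := fun r => SS h r / r ^ 2 - (nm p)⁻¹ * (SS h (r / s) / (r / s) ^ 2) with hA
  have hDA : ∀ r : ℝ, 0 < r → D r = A r + t / nm p * D (r / s) := by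
    intro r hr
    simp only [hD, hA]
    rw [hkey r, hNs]
    field_simp
  have hAlim : Tendsto A atTop (𝓝 (cD * c - (nm p)⁻¹ * (cD * c))) := by
    apply Tendsto.sub hh
    apply Tendsto.const_mul
    exact hh.comp (tendsto_id.atTop_div_const hs0)
  set Ds : ℝ := cD * (c * ((nm p - 1) / (nm p - t))) with hDs
  have ht1 : t ≤ 1 := (abs_le.1 ht).2
  have ht2 : -1 ≤ t := (abs_le.1 ht).1
  have hne : nm p - t ≠ 0 := by
    have : 0 < nm p - t := by linarith
    exact this.ne'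
  have hN0 : nm p ≠ 0 := by linarith
  have hDsA : cD * c - (nm p)⁻¹ * (cD * c) = Ds - t / nm p * Ds := by
    rw [hDs]
    field_simp
  have hDb : ∀ r : ℝ, 0 < r → |D r| ≤ 9 := by
    intro r hr
    simp only [hD]
    rw [abs_div, abs_of_pos (by positivity : (0 : ℝ) < r ^ 2), div_le_iff₀ (by positivity)]
    exact SS_abs_le F hF1 r
  have htN : |t / nm p| ≤ 1 / 2 := by
    rw [abs_div, abs_of_pos (by linarith : 0 < nm p), div_le_iff₀ (by linarith)]
    linarith
  rw [HasMean, Metric.tendsto_atTop]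
  intro ε hε
  have hAev : ∀ᶠ r in atTop, |A r - (Ds - t / nm p * Ds)| ≤ ε / 4 := by
    rw [hDsA] at hAlim
    have := (Metric.tendsto_nhds.1 hAlim) (ε / 4) (by positivity)
    filter_upwards [this] with r hr
    rw [Real.dist_eq] at hr
    exact hr.le
  have hind : ∀ j : ℕ, ∀ᶠ r in atTop, |D r - Ds| ≤ (9 + |Ds|) / 2 ^ j + ε / 2 := by
    intro j
    induction j with
    | zero =>
      filter_upwards [eventually_gt_atTop 0] with r hr
      calc |D r - Ds| ≤ |D r| + |Ds| := abs_sub _ _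
        _ ≤ 9 + |Ds| := by linarith [hDb r hr]
        _ ≤ (9 + |Ds|) / 2 ^ 0 + ε / 2 := by rw [pow_zero, div_one]; linarith
    | succ j ih =>
      have ih' : ∀ᶠ r in atTop, |D (r / s) - Ds| ≤ (9 + |Ds|) / 2 ^ j + ε / 2 :=
        (tendsto_id.atTop_div_const hs0).eventually ih
      filter_upwards [ih', hAev, eventually_gt_atTop 0] with r h1 h2 h3
      have h4 : D r - Ds = (A r - (Ds - t / nm p * Ds)) + t / nm p * (D (r / s) - Ds) := by
        rw [hDA r h3]; ring
      rw [h4]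
      calc |A r - (Ds - t / nm p * Ds) + t / nm p * (D (r / s) - Ds)|
          ≤ |A r - (Ds - t / nm p * Ds)| + |t / nm p * (D (r / s) - Ds)| := abs_add_le _ _
        _ ≤ ε / 4 + 1 / 2 * ((9 + |Ds|) / 2 ^ j + ε / 2) := by
            rw [abs_mul]
            apply add_le_add h2
            apply mul_le_mul htN h1 (abs_nonneg _) (by norm_num)
        _ = (9 + |Ds|) / 2 ^ (j + 1) + ε / 2 := by
            rw [pow_succ]
            field_simp
            ring
  obtain ⟨j, hj⟩ : ∃ j : ℕ, (9 + |Ds|) / 2 ^ j < ε / 4 := by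
    obtain ⟨j, hj⟩ := pow_unbounded_of_one_lt ((9 + |Ds|) / (ε / 4)) (one_lt_two)
    refine ⟨j, ?_⟩
    rw [div_lt_iff₀ (by positivity)]
    rw [div_lt_iff₀ (by positivity)] at hj
    linarith
  obtain ⟨r₀, hr₀⟩ := eventually_atTop.1 (hind j)
  refine ⟨r₀, fun r hr => ?_⟩
  rw [Real.dist_eq]
  have := hr₀ r hr
  show |D r - Ds| < ε
  linarith

/-- approximation lemma -/
theorem hasMean_of_approx {f : GaussianInt → ℝ} {c : ℝ}
    (H : ∀ ε : ℝ, 0 < ε → ∃ (F : GaussianInt → ℝ) (c' : ℝ), HasMean F c' ∧ |c' - c| ≤ ε ∧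
      ∀ r : ℝ, SS (fun n => |f n - F n|) r ≤ ε * r ^ 2) : HasMean f c := by
  rw [HasMean, Metric.tendsto_atTop]
  intro ε hε
  have hc := cD_pos
  obtain ⟨F, c', hF, hcc, happ⟩ := H (ε / (4 * (cD + 1))) (by positivity)
  rw [HasMean, Metric.tendsto_atTop] at hF
  obtain ⟨r₀, hr₀⟩ := hF (ε / 4) (by positivity)
  refine ⟨max r₀ 1, fun r hr => ?_⟩
  have hr1 : r₀ ≤ r := (le_max_left _ _).trans hr
  have hr2 : 1 ≤ r := (le_max_right _ _).trans hr
  have hr0 : (0 : ℝ) < r ^ 2 := by positivity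
  have h1 := hr₀ r hr1
  rw [Real.dist_eq] at h1 ⊢
  have h2 : |SS f r - SS F r| ≤ ε / (4 * (cD + 1)) * r ^ 2 := by
    rw [SS, SS, ← Finset.sum_sub_distrib]
    exact (Finset.abs_sum_le_sum_abs _ _).trans (happ r)
  have h3 : SS f r / r ^ 2 - cD * c
      = (SS f r - SS F r) / r ^ 2 + (SS F r / r ^ 2 - cD * c') + cD * (c' - c) := by
    field_simp
    ring
  rw [h3]
  have h4 : |(SS f r - SS F r) / r ^ 2| ≤ ε / 4 := by
    rw [abs_div, abs_of_pos hr0, div_le_iff₀ hr0]
    refine h2.trans ?_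
    gcongr
    linarith
  have h5 : |cD * (c' - c)| ≤ ε / 4 := by
    rw [abs_mul, abs_of_pos hc]
    calc cD * |c' - c| ≤ cD * (ε / (4 * (cD + 1))) := by gcongr
      _ ≤ ε / 4 := by
        rw [mul_div_assoc', div_le_div_iff₀ (by positivity) (by positivity)]
        nlinarith
  calc |(SS f r - SS F r) / r ^ 2 + (SS F r / r ^ 2 - cD * c') + cD * (c' - c)|
      ≤ |(SS f r - SS F r) / r ^ 2| + |SS F r / r ^ 2 - cD * c'| + |cD * (c' - c)| :=
        abs_add_three _ _ _
    _ < ε := by linarith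

theorem hasMean_unique {f : GaussianInt → ℝ} {c c' : ℝ} (h : HasMean f c) (h' : HasMean f c') :
    c = c' := by
  have := tendsto_nhds_unique h h'
  exact mul_left_cancel₀ cD_pos.ne' this

theorem hasMean_dist_le {f g : GaussianInt → ℝ} {c c' ε : ℝ} (h : HasMean f c) (h' : HasMean g c')
    (happ : ∀ r : ℝ, SS (fun n => |f n - g n|) r ≤ ε * r ^ 2) : cD * |c' - c| ≤ ε := by
  have h1 : Tendsto (fun r : ℝ => |SS g r / r ^ 2 - SS f r / r ^ 2|) atTop
      (𝓝 |cD * c' - cD * c|) := (h'.sub h).abs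
  have h2 : |cD * c' - cD * c| = cD * |c' - c| := by
    rw [← mul_sub, abs_mul, abs_of_pos cD_pos]
  rw [← h2]
  apply le_of_tendsto h1
  filter_upwards [eventually_gt_atTop 0] with r hr
  have hr0 : (0 : ℝ) < r ^ 2 := by positivity
  rw [← sub_div, abs_div, abs_of_pos hr0, div_le_iff₀ hr0, abs_sub_comm, SS, SS,
    ← Finset.sum_sub_distrib]
  exact (Finset.abs_sum_le_sum_abs _ _).trans (happ r)

end Pool.Agent.GaussPret
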