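import Pool.Agent.Hhelper49.GaussPret.Main

set_option autoImplicit false

open Filter Topology MeasureTheory
open scoped ENNReal

namespace Pool.Agent.GaussPret

/-! ### Functions with `P(|f|) = 0` -/

section

variable {f : GaussianInt → ℝ}

theorem IsBCM.abs (hf : IsBCM f) : IsBCM (fun n => |f n|) where
  mul := by
    intro m n hm hn
    show |f (m * n)| = |f m| * |f n|
    rw [hf.mul m n hm hn, abs_mul]
  bdd := by
    obtain ⟨C, hC⟩ := hf.bdd
    exact ⟨C, fun n hn => by rw [abs_abs]; exact hC n hn⟩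
  map_I := by
    show |f ⟨0, 1⟩| = 1
    rw [hf.map_I, abs_one]

theorem le_Fm (hf : IsBCM f) (hnn : ∀ n : GaussianInt, n ≠ 0 → 0 ≤ f n) (T : Finset P1)
    (n : GaussianInt) : n ≠ 0 → f n ≤ Fm f T n := by
  classical
  induction n using UniqueFactorizationMonoid.induction_on_prime with
  | h₁ => intro h; exact absurd rfl h
  | h₂ u hu =>
    intro _
    rw [hf.map_unit hu, ← Fm_assoc T (associated_one_iff_isUnit.2 hu).symm, Fm_one]
  | h₃ a q ha hq ih =>
    intro _
    have hq0 : q ≠ 0 := hq.ne_zero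
    obtain ⟨p, hp⟩ := exists_P1 hq
    have hfq : f q = f p := (hf.map_assoc hp (P1_ne_zero p)).symm
    have hFq : Fm f T (q * a) = (if p ∈ T then f p else 1) * Fm f T a := by
      rw [← Fm_prime_mul T p ha]
      exact Fm_assoc T (hp.symm.mul_right a)
    have hfp : f p ≤ 1 := hf.le_one (P1_ne_zero p)
    have hfp0 : 0 ≤ f p := hnn _ (P1_ne_zero p)
    rw [hf.mul q a hq0 ha, hfq, hFq]
    have h1 := ih ha
    have h2 := hnn a ha
    split_ifs with h
    · exact mul_le_mul_of_nonneg_left h1 hfp0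
    · rw [one_mul]
      nlinarith

theorem hasMean_zero (hf : IsBCM f) (hnn : ∀ n : GaussianInt, n ≠ 0 → 0 ≤ f n)
    (h0 : PP f = 0) (ε : ℝ) (hε : 0 < ε) : ∀ᶠ r in atTop, SS f r ≤ ε * r ^ 2 := by
  have hc := cD_pos
  have h1 := PP_tendsto hf
  rw [h0] at h1
  have h2 : ∀ᶠ s : Finset P1 in atTop, ∏ p ∈ s, af f p < ε / (2 * cD) :=
    h1.eventually (gt_mem_nhds (by positivity))
  obtain ⟨T, hT⟩ := h2.exists
  have h3 := hasMean_Fm hf T
  have h4 : cD * (∏ p ∈ T, (nm (p : GaussianInt) - 1) / (nm (p : GaussianInt) - f p)) < ε := by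
    have h5 : ∏ p ∈ T, (nm (p : GaussianInt) - 1) / (nm (p : GaussianInt) - f p) < ε / (2 * cD) :=
      hT
    calc cD * (∏ p ∈ T, (nm (p : GaussianInt) - 1) / (nm (p : GaussianInt) - f p))
        < cD * (ε / (2 * cD)) := mul_lt_mul_of_pos_left h5 hc
      _ = ε / 2 := by field_simp
      _ < ε := by linarith
  filter_upwards [h3.eventually (gt_mem_nhds h4), eventually_gt_atTop 0] with r h5 h6
  rw [div_lt_iff₀ (by positivity)] at h5
  refine le_trans ?_ h5.le
  rw [SS, SS]
  apply Finset.sum_le_sum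
  intro n hn
  exact le_Fm hf hnn T n (mem_ball.1 hn).1

theorem PP_zero_of_abs (hf : IsBCM f) (h0 : PP (fun n => |f n|) = 0) : PP f = 0 := by
  by_contra h
  have h1 := hasMean_of_summable hf (summable_of_PP hf h)
  have h2 : Tendsto (fun r : ℝ => SS f r / r ^ 2) atTop (𝓝 0) := by
    rw [Metric.tendsto_atTop']
    intro ε hε
    obtain ⟨r₀, hr₀⟩ := eventually_atTop.1
      (hasMean_zero hf.abs (fun n _ => abs_nonneg _) h0 (ε / 2) (by positivity))
    refine ⟨max r₀ 1, fun r hr => ?_⟩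
    have hr1 : r₀ ≤ r := ((le_max_left _ _).trans_lt hr).le
    have hr2 : 1 < r := (le_max_right _ _).trans_lt hr
    have hr3 : 0 < r ^ 2 := by positivity
    rw [Real.dist_eq, sub_zero, abs_div, abs_of_pos hr3, div_lt_iff₀ hr3]
    calc |SS f r| ≤ SS (fun n => |f n|) r := Finset.abs_sum_le_sum_abs _ _
      _ ≤ ε / 2 * r ^ 2 := hr₀ r hr1
      _ < ε * r ^ 2 := by nlinarith
  have h3 := tendsto_nhds_unique h1 h2
  rcases mul_eq_zero.1 h3 with h4 | h4
  · exact cD_pos.ne' h4
  · exact h h4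

theorem zero_main (hf : IsBCM f) (h0 : PP (fun n => |f n|) = 0)
    {Φ : ℕ → Finset GaussianInt} (hΦ : IsDilatedFolner Φ) :
    ∃ L : ℕ → ℝ,
      (∀ H, Tendsto (fun N => avg (Φ N) (fun n => |avg (win (Φ H) n) f - PP f|)) atTop
        (𝓝 (L H))) ∧ Tendsto L atTop (𝓝 0) := by
  obtain ⟨U, k, hU, hF, hV, hk, hkt, hΦ⟩ := hΦ
  obtain ⟨ρ, hρ0, hρ⟩ := hU.exists_pos_norm_le
  have hVr : 0 < (volume U).toReal := ENNReal.toReal_pos hV.ne' hU.measure_lt_top.ne
  have hcard := card_lower hU hF hV hkt hΦ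
  have hP := PP_zero_of_abs hf h0
  set V := (volume U).toReal with hVdef
  apply conv_lemma _ (2 * (1 + (ρ + 1) ^ 2) / V) (by positivity)
  intro ε hε
  refine ⟨fun _ => 0, ?_, by simp only [abs_zero]; exact Eventually.of_forall (fun _ => by positivity)⟩
  intro H
  obtain ⟨RA, hRA0, hRA⟩ : ∃ RA : ℝ, 0 ≤ RA ∧ ∀ n ∈ Φ H, ‖GaussianInt.toComplex n‖ ≤ RA := by
    obtain ⟨R, hR⟩ := ((Φ H).finite_toSet.image (fun n => ‖GaussianInt.toComplex n‖)).bddAbove
    exact ⟨max R 0, le_max_right _ _, fun n hn => (hR ⟨n, hn, rfl⟩).trans (le_max_left _ _)⟩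
  have hz := hasMean_zero hf.abs (fun n _ => abs_nonneg _) h0 ε hε
  have hkr : Tendsto (fun N => ρ * k N + RA) atTop atTop :=
    tendsto_atTop_add_const_right _ _ (hkt.const_mul_atTop hρ0)
  filter_upwards [hkr.eventually hz, hcard, hkt.eventually_ge_atTop 1, hkt.eventually_ge_atTop RA,
    hkt.eventually_ge_atTop (2 * ((Φ H).card : ℝ) / ε)] with N h1 h2 h3 h4 h5
  have hkpos : 0 < k N := by linarith
  have hk2 : 0 < k N ^ 2 := by positivity
  have hCpos : 0 < ((Φ N).card : ℝ) := lt_of_lt_of_le (by positivity) h2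
  have hRB : ∀ n ∈ Φ N, ‖GaussianInt.toComplex n‖ ≤ ρ * k N := by
    intro n hn
    by_cases h0 : n = 0
    · rw [h0, map_zero, norm_zero]; positivity
    · obtain ⟨u, hu, hnu⟩ := (hΦ N n h0).1 hn
      rw [hnu, norm_mul, Complex.norm_real, Real.norm_eq_abs, abs_of_pos hkpos, mul_comm]
      exact mul_le_mul_of_nonneg_right (hρ u hu) hkpos.le
  have hcmp := sum_cmp (P := PP f) (g := fun _ => 0) (E := ε * (ρ * k N + RA) ^ 2)
    (fun n hn => hf.abs_le_one hn)
    (fun _ => by rw [abs_zero]; exact zero_le_one) (Φ H) (Φ N) RA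
    (ρ * k N) (by simpa only [sub_zero] using h1) hRA hRB
  have hz2 : ∑ n ∈ Φ N, abs (avg (Φ H) (fun _ => (0 : ℝ)) - PP f) = 0 := by
    rw [hP]
    simp [avg]
  rw [hz2, sub_zero] at hcmp
  rw [sub_zero, avg, abs_div, abs_of_pos hCpos, div_le_iff₀ hCpos]
  refine hcmp.trans ?_
  have h7 : 2 * ((Φ H).card : ℝ) ≤ ε * k N ^ 2 := by
    rw [div_le_iff₀ hε] at h5
    nlinarith [mul_le_mul_of_nonneg_left h3 (by positivity : 0 ≤ ε * k N)]
  have h8 : ε * (ρ * k N + RA) ^ 2 ≤ ε * ((ρ + 1) ^ 2 * k N ^ 2) := by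
    apply mul_le_mul_of_nonneg_left _ hε.le
    rw [← mul_pow]
    apply pow_le_pow_left₀ (by positivity)
    linarith
  have h10 : 2 * (1 + (ρ + 1) ^ 2) / V * ε * (k N ^ 2 * (V / 2)) ≤
      2 * (1 + (ρ + 1) ^ 2) / V * ε * ((Φ N).card : ℝ) := by
    apply mul_le_mul_of_nonneg_left h2
    positivity
  have h11 : 2 * (1 + (ρ + 1) ^ 2) / V * ε * (k N ^ 2 * (V / 2))
      = ε * k N ^ 2 + ε * ((ρ + 1) ^ 2 * k N ^ 2) := by
    field_simp
  linarith

end

/-! ### Squares and the trivial character -/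

theorem mem_sqr {N : ℕ} {n : GaussianInt} :
    n ∈ sqr N ↔ (|n.re| ≤ N ∧ |n.im| ≤ N) := by
  rw [sqr, Finset.mem_image]
  constructor
  · rintro ⟨x, hx, rfl⟩
    rw [Finset.mem_product, Finset.mem_Icc, Finset.mem_Icc] at hx
    exact ⟨abs_le.2 hx.1, abs_le.2 hx.2⟩
  · rintro ⟨h1, h2⟩
    refine ⟨(n.re, n.im), ?_, rfl⟩
    rw [Finset.mem_product, Finset.mem_Icc, Finset.mem_Icc]
    exact ⟨abs_le.1 h1, abs_le.1 h2⟩

/-- the unit square -/
def usq : Set ℂ := {z | |z.re| ≤ 1 ∧ |z.im| ≤ 1}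

theorem convex_usq : Convex ℝ usq := by
  intro x hx y hy a b ha hb hab
  have key : ∀ s t : ℝ, |s| ≤ 1 → |t| ≤ 1 → |a * s + b * t| ≤ 1 := by
    intro s t hs ht
    calc |a * s + b * t| ≤ |a * s| + |b * t| := abs_add_le _ _
      _ ≤ a * 1 + b * 1 := by
          rw [abs_mul, abs_mul, abs_of_nonneg ha, abs_of_nonneg hb]
          exact add_le_add (mul_le_mul_of_nonneg_left hs ha) (mul_le_mul_of_nonneg_left ht hb)
      _ = 1 := by rw [mul_one, mul_one, hab]
  constructor
  · rw [Complex.add_re, Complex.smul_re, Complex.smul_re, smul_eq_mul, smul_eq_mul]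
    exact key _ _ hx.1 hy.1
  · rw [Complex.add_im, Complex.smul_im, Complex.smul_im, smul_eq_mul, smul_eq_mul]
    exact key _ _ hx.2 hy.2

theorem isDilatedFolner_sqr : IsDilatedFolner sqr := by
  refine ⟨usq, fun N => max N (1 / 2), ?_, ?_, ?_, ?_, ?_, ?_⟩
  · rw [isBounded_iff_forall_norm_le]
    refine ⟨2, fun z hz => ?_⟩
    calc ‖z‖ ≤ |z.re| + |z.im| := Complex.norm_le_abs_re_add_abs_im _
      _ ≤ 2 := by linarith [hz.1, hz.2]
  · exact convex_usq.addHaar_frontier volume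
  · refine lt_of_lt_of_le (Metric.measure_closedBall_pos volume (0 : ℂ) one_pos) (measure_mono ?_)
    intro z hz
    rw [mem_closedBall_zero_iff] at hz
    exact ⟨(Complex.abs_re_le_norm z).trans hz, (Complex.abs_im_le_norm z).trans hz⟩
  · intro N
    exact lt_of_lt_of_le (by norm_num) (le_max_right _ _)
  · exact tendsto_atTop_mono (fun N => le_max_left _ _) tendsto_natCast_atTop_atTop
  · intro N n hn
    rw [mem_sqr]
    set κ : ℝ := max N (1 / 2) with hκ
    have hκ0 : 0 < κ := lt_of_lt_of_le (by norm_num) (le_max_right _ _)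
    have hκc : (κ : ℂ) ≠ 0 := by exact_mod_cast hκ0.ne'
    have hint : ∀ a : ℤ, |a| ≤ (N : ℤ) ↔ |(a : ℝ)| ≤ κ := by
      intro a
      constructor
      · intro h
        have : ((|a| : ℤ) : ℝ) ≤ ((N : ℤ) : ℝ) := by exact_mod_cast h
        push_cast at this
        exact this.trans (le_max_left _ _)
      · intro h
        have h1 : κ < N + 1 := by
          rw [hκ]
          apply max_lt
          · linarith
          · have : (0 : ℝ) ≤ N := Nat.cast_nonneg _
            linarith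
        have h2 : ((|a| : ℤ) : ℝ) < ((N + 1 : ℤ) : ℝ) := by
          push_cast
          linarith
        have h3 : |a| < (N : ℤ) + 1 := by exact_mod_cast h2
        omega
    rw [hint, hint]
    constructor
    · rintro ⟨h1, h2⟩
      refine ⟨GaussianInt.toComplex n / κ, ?_, by rw [mul_div_cancel₀ _ hκc]⟩
      constructor
      · rw [Complex.div_ofReal_re, abs_div, abs_of_pos hκ0, div_le_one hκ0, ← GaussianInt.intCast_re]
        exact h1
      · rw [Complex.div_ofReal_im, abs_div, abs_of_pos hκ0, div_le_one hκ0, ← GaussianInt.intCast_im]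
        exact h2
    · rintro ⟨u, hu, hn⟩
      have h1 : (n.re : ℝ) = κ * u.re := by
        rw [GaussianInt.intCast_re, hn, Complex.re_ofReal_mul]
      have h2 : (n.im : ℝ) = κ * u.im := by
        rw [GaussianInt.intCast_im, hn, Complex.im_ofReal_mul]
      rw [h1, h2, abs_mul, abs_mul, abs_of_pos hκ0]
      exact ⟨by nlinarith [hu.1], by nlinarith [hu.2]⟩

theorem isRayChar_one : IsRayChar 1 (fun _ => 1) where
  mul := by intro a b; norm_num
  per := by intro a b; rfl
  zero_iff := by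
    intro a
    constructor
    · intro h; exact absurd h one_ne_zero
    · intro h
      exfalso
      apply h
      rw [Nat.cast_one]
      exact isCoprime_one_right
  map_I := rfl

end Pool.Agent.GaussPret
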